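import Mathlib

/-!
The gap principle.
-/

namespace Pool.Agent.Lib.MP_a849c1_nt

lemma gap_lb (x b z S R : ℝ) (hx : 0 < x) (hb : 0 < b) (hz : 0 < z) (hS : 0 ≤ S)
    (hR : R ^ 2 = b * z) (q : S ^ 2 = (x * b + 1) * (x * z + 1)) : x * R ≤ S := by
  apply le_of_sq_le_sq _ hS
  rw [q, mul_pow, hR]
  nlinarith [mul_pos hx hb, mul_pos hx hz]

lemma gap_id1 (x1 x3 b z S1 S3 : ℝ)
    (q1 : S1 ^ 2 = (x1 * b + 1) * (x1 * z + 1)) (q3 : S3 ^ 2 = (x3 * b + 1) * (x3 * z + 1)) :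
    ((2 * (b * z * x1 * x3) + (b + z) * (x1 + x3) + 2) - 2 * (S1 * S3)) *
      ((2 * (b * z * x1 * x3) + (b + z) * (x1 + x3) + 2) + 2 * (S1 * S3)) =
      ((z - b) * (x3 - x1)) ^ 2 := by
  have h : ∀ q : ℝ, (q - 2 * (S1 * S3)) * (q + 2 * (S1 * S3)) = q ^ 2 - 4 * (S1 ^ 2 * S3 ^ 2) :=
    fun q => by ring
  rw [h, q1, q3]; ring

lemma gap_id2 (x1 x2 x3 b z S1 S2 S3 : ℝ)
    (q1 : S1 ^ 2 = (x1 * b + 1) * (x1 * z + 1)) (q2 : S2 ^ 2 = (x2 * b + 1) * (x2 * z + 1))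
    (q3 : S3 ^ 2 = (x3 * b + 1) * (x3 * z + 1)) :
    ((x3 - x1) * S2 - ((x3 - x2) * S1 + (x2 - x1) * S3)) *
      ((x3 - x1) * S2 + ((x3 - x2) * S1 + (x2 - x1) * S3)) =
      (x3 - x2) * (x2 - x1) *
        ((2 * (b * z * x1 * x3) + (b + z) * (x1 + x3) + 2) - 2 * (S1 * S3)) := by
  have : ((x3 - x1) * S2 - ((x3 - x2) * S1 + (x2 - x1) * S3)) *
      ((x3 - x1) * S2 + ((x3 - x2) * S1 + (x2 - x1) * S3)) =
      (x3 - x1) ^ 2 * S2 ^ 2 - (x3 - x2) ^ 2 * S1 ^ 2 -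
        (x2 - x1) ^ 2 * S3 ^ 2 - 2 * ((x3 - x2) * (x2 - x1)) * (S1 * S3) := by ring
  rw [this, q1, q2, q3]; ring

lemma gap_qpos (x1 x3 b z S1 S3 R : ℝ) (p1 : 0 < x1) (p3 : 0 < x3) (pb : 0 < b) (pz : 0 < z)
    (n1 : 0 ≤ S1) (hR0 : 0 < R) (hR : R ^ 2 = b * z) (l1 : x1 * R ≤ S1) (l3 : x3 * R ≤ S3) :
    4 * (x1 * x3) * (b * z) ≤
      (2 * (b * z * x1 * x3) + (b + z) * (x1 + x3) + 2) + 2 * (S1 * S3) := by
  have h1 : (x1 * R) * (x3 * R) ≤ S1 * S3 := mul_le_mul l1 l3 (by positivity) n1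
  have h2 : (x1 * R) * (x3 * R) = x1 * x3 * (b * z) := by rw [← hR]; ring
  have h3 : 0 ≤ (b + z) * (x1 + x3) := by positivity
  rw [h2] at h1
  linarith

lemma gap_PQ (x1 x2 x3 S1 S2 S3 R : ℝ) (p12 : x1 < x2) (p23 : x2 < x3)
    (l1 : x1 * R ≤ S1) (l2 : x2 * R ≤ S2) (l3 : x3 * R ≤ S3) :
    2 * (x2 * (x3 - x1)) * R ≤ (x3 - x1) * S2 + ((x3 - x2) * S1 + (x2 - x1) * S3) := by
  have h1 := mul_le_mul_of_nonneg_left l2 (show 0 ≤ x3 - x1 by linarith)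
  have e1 := mul_le_mul_of_nonneg_left l1 (show 0 ≤ x3 - x2 by linarith)
  have e2 := mul_le_mul_of_nonneg_left l3 (show 0 ≤ x2 - x1 by linarith)
  have e3 : 2 * (x2 * (x3 - x1)) * R = (x3 - x1) * (x2 * R) +
    ((x3 - x2) * (x1 * R) + (x2 - x1) * (x3 * R)) := by ring
  rw [e3]
  exact add_le_add h1 (add_le_add e1 e2)

lemma gap_rhs (x1 x2 x3 b z : ℝ) (p1 : 0 < x1) (p12 : x1 < x2) (p23 : x2 < x3) (pb : 0 < b)
    (pbz : b < z) :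
    (x3 - x2) * (x2 - x1) * ((z - b) * (x3 - x1)) ^ 2 ≤
      (x2 * (x3 - x1)) * (x3 * x3) * z ^ 2 := by
  have p2 : 0 < x2 := p1.trans p12
  have p3 : 0 < x3 := p2.trans p23
  have d31 : 0 < x3 - x1 := by linarith
  have e1 : (z - b) ^ 2 ≤ z ^ 2 := by
    apply pow_le_pow_left₀ (by linarith); linarith
  have e2 : (x3 - x2) * (x2 - x1) * (x3 - x1) ≤ x3 * x2 * x3 := by
    apply mul_le_mul _ (by linarith) (by linarith) (by positivity)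
    apply mul_le_mul (by linarith) (by linarith) (by linarith) (by positivity)
  calc (x3 - x2) * (x2 - x1) * ((z - b) * (x3 - x1)) ^ 2
      = ((x3 - x2) * (x2 - x1) * (x3 - x1)) * (z - b) ^ 2 * (x3 - x1) := by ring
    _ ≤ (x3 * x2 * x3) * z ^ 2 * (x3 - x1) := by
        apply mul_le_mul_of_nonneg_right _ d31.le
        apply mul_le_mul e2 e1 (by positivity) (by positivity)
    _ = _ := by ring

lemma gap_final (x1 x2 x3 b z R : ℝ) (p1 : 0 < x1) (p12 : x1 < x2) (p23 : x2 < x3) (pb : 0 < b)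
    (pbz : b < z) (hR0 : 0 < R) (hR : R ^ 2 = b * z)
    (main2 : (2 * (x2 * (x3 - x1)) * R) * (4 * (x1 * x3) * (b * z)) ≤
      (x2 * (x3 - x1)) * (x3 * x3) * z ^ 2) : 64 * b ^ 3 * x1 ^ 2 ≤ z * x3 ^ 2 := by
  have p2 : 0 < x2 := p1.trans p12
  have p3 : 0 < x3 := p2.trans p23
  have d31 : 0 < x3 - x1 := by linarith
  have pz : 0 < z := pb.trans pbz
  have main3 : 8 * x1 * b * R ≤ x3 * z := by
    have h2 : (2 * (x2 * (x3 - x1)) * R) * (4 * (x1 * x3) * (b * z)) =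
        (x2 * (x3 - x1) * x3 * z) * (8 * x1 * b * R) := by ring
    have h3 : (x2 * (x3 - x1)) * (x3 * x3) * z ^ 2 = (x2 * (x3 - x1) * x3 * z) * (x3 * z) := by ring
    rw [h2, h3] at main2
    exact le_of_mul_le_mul_left main2 (by positivity)
  have h1 : (8 * x1 * b * R) ^ 2 ≤ (x3 * z) ^ 2 := pow_le_pow_left₀ (by positivity) main3 2
  have h2 : (8 * x1 * b * R) ^ 2 = z * (64 * b ^ 3 * x1 ^ 2) := by
    have : (8 * x1 * b * R) ^ 2 = 64 * x1 ^ 2 * b ^ 2 * R ^ 2 := by ring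
    rw [this, hR]; ring
  have h3 : (x3 * z) ^ 2 = z * (z * x3 ^ 2) := by ring
  rw [h2, h3] at h1
  exact le_of_mul_le_mul_left h1 pz

lemma gap_core (x1 x2 x3 b z S1 S2 S3 : ℝ) (p1 : 0 < x1) (p12 : x1 < x2) (p23 : x2 < x3)
    (pb : 0 < b) (pbz : b < z) (n1 : 0 ≤ S1) (n2 : 0 ≤ S2) (n3 : 0 ≤ S3)
    (q1 : S1 ^ 2 = (x1 * b + 1) * (x1 * z + 1)) (q2 : S2 ^ 2 = (x2 * b + 1) * (x2 * z + 1))
    (q3 : S3 ^ 2 = (x3 * b + 1) * (x3 * z + 1))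
    (hint : 0 < (x3 - x1) * S2 - ((x3 - x2) * S1 + (x2 - x1) * S3) →
      1 ≤ (x3 - x1) * S2 - ((x3 - x2) * S1 + (x2 - x1) * S3)) :
    64 * b ^ 3 * x1 ^ 2 ≤ z * x3 ^ 2 := by
  have p2 : 0 < x2 := p1.trans p12
  have p3 : 0 < x3 := p2.trans p23
  have pz : 0 < z := pb.trans pbz
  obtain ⟨R, hR0, hR⟩ : ∃ R : ℝ, 0 < R ∧ R ^ 2 = b * z :=
    ⟨√(b * z), Real.sqrt_pos.mpr (by positivity), Real.sq_sqrt (by positivity)⟩
  have l1 := gap_lb x1 b z S1 R p1 pb pz n1 hR q1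
  have l2 := gap_lb x2 b z S2 R p2 pb pz n2 hR q2
  have l3 := gap_lb x3 b z S3 R p3 pb pz n3 hR q3
  have id1 := gap_id1 x1 x3 b z S1 S3 q1 q3
  have id2 := gap_id2 x1 x2 x3 b z S1 S2 S3 q1 q2 q3
  have lb1 := gap_qpos x1 x3 b z S1 S3 R p1 p3 pb pz n1 hR0 hR l1 l3
  have lb2 := gap_PQ x1 x2 x3 S1 S2 S3 R p12 p23 l1 l2 l3
  have rhs := gap_rhs x1 x2 x3 b z p1 p12 p23 pb pbz
  have fin := gap_final x1 x2 x3 b z R p1 p12 p23 pb pbz hR0 hR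
  have d31 : 0 < x3 - x1 := by linarith
  have c1 : 0 < 4 * (x1 * x3) * (b * z) := by positivity
  have c2 : 0 < 2 * (x2 * (x3 - x1)) * R := by positivity
  have c3 : 0 < ((z - b) * (x3 - x1)) ^ 2 := pow_pos (mul_pos (by linarith) d31) 2
  have c4 : 0 < (x3 - x2) * (x2 - x1) := mul_pos (by linarith) (by linarith)
  generalize (2 * (b * z * x1 * x3) + (b + z) * (x1 + x3) + 2) + 2 * (S1 * S3) = U at *
  generalize (2 * (b * z * x1 * x3) + (b + z) * (x1 + x3) + 2) - 2 * (S1 * S3) = W at *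
  generalize (x3 - x1) * S2 - ((x3 - x2) * S1 + (x2 - x1) * S3) = M at *
  generalize (x3 - x1) * S2 + ((x3 - x2) * S1 + (x2 - x1) * S3) = T at *
  generalize (x3 - x2) * (x2 - x1) = c at *
  have hU : 0 < U := lt_of_lt_of_le c1 lb1
  have hT : 0 < T := lt_of_lt_of_le c2 lb2
  have hW : 0 < W := by
    rw [← id1] at c3
    exact (mul_pos_iff_of_pos_right hU).mp c3
  have hM : 0 < M := by
    have h := mul_pos c4 hW
    rw [← id2] at h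
    exact (mul_pos_iff_of_pos_right hT).mp h
  have hM1 := hint hM
  have hTU : 0 < T * U := mul_pos hT hU
  have main : T * U ≤ c * ((z - b) * (x3 - x1)) ^ 2 := by
    rw [← id1, ← mul_assoc c W U, ← id2, mul_assoc]
    exact le_mul_of_one_le_left hTU.le hM1
  apply fin
  refine le_trans ?_ (main.trans rhs)
  exact mul_le_mul lb2 lb1 c1.le hT.le

/-- The gap principle: if `a₁ < a₂ < a₃`, `B < X` and all `aᵢ B + 1`, `aᵢ X + 1` are squares then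
`X a₃² ≥ 64 B³ a₁²`. -/
theorem gap (a1 a2 a3 B X s1 s2 s3 y1 y2 y3 : ℕ) (ha1 : 0 < a1) (h12 : a1 < a2) (h23 : a2 < a3)
    (hB : 0 < B) (hBX : B < X)
    (hs1 : a1 * B + 1 = s1 ^ 2) (hs2 : a2 * B + 1 = s2 ^ 2) (hs3 : a3 * B + 1 = s3 ^ 2)
    (hy1 : a1 * X + 1 = y1 ^ 2) (hy2 : a2 * X + 1 = y2 ^ 2) (hy3 : a3 * X + 1 = y3 ^ 2) :
    64 * B ^ 3 * a1 ^ 2 ≤ X * a3 ^ 2 := by
  have key : ∀ a s y : ℕ, a * B + 1 = s ^ 2 → a * X + 1 = y ^ 2 →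
      ((s : ℝ) * y) ^ 2 = ((a : ℝ) * B + 1) * ((a : ℝ) * X + 1) := by
    intro a s y h1 h2
    have e1 : ((a : ℝ) * B + 1) = (s : ℝ) ^ 2 := by exact_mod_cast h1
    have e2 : ((a : ℝ) * X + 1) = (y : ℝ) ^ 2 := by exact_mod_cast h2
    rw [e1, e2]; ring
  have h := gap_core (a1 : ℝ) a2 a3 B X (s1 * y1) (s2 * y2) (s3 * y3) (by exact_mod_cast ha1)
    (by exact_mod_cast h12) (by exact_mod_cast h23) (by exact_mod_cast hB) (by exact_mod_cast hBX)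
    (by positivity) (by positivity) (by positivity) (key a1 s1 y1 hs1 hy1) (key a2 s2 y2 hs2 hy2)
    (key a3 s3 y3 hs3 hy3) (by
      intro h0
      have h1 : ((a3 : ℝ) - a1) * (s2 * y2) - (((a3 : ℝ) - a2) * (s1 * y1) +
          ((a2 : ℝ) - a1) * (s3 * y3)) = ((((a3 : ℤ) - a1) * (s2 * y2) -
          (((a3 : ℤ) - a2) * (s1 * y1) + ((a2 : ℤ) - a1) * (s3 * y3)) : ℤ) : ℝ) := by
        push_cast
        ring
      rw [h1] at h0 ⊢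
      exact_mod_cast h0)
  exact_mod_cast h

end Pool.Agent.Lib.MP_a849c1_nt
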