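import Mathlib

/-!
Binomial coefficients `(k - 1/2 choose m)`.
-/

open Finset

namespace Pool.Agent.Lib.MP_a849c1_nt

/-- `(k - 1/2 choose m)` as a real number. -/
noncomputable def hc (k m : ℕ) : ℝ := Ring.choose ((k : ℝ) - 1 / 2) m

lemma choose_rec (a : ℝ) (m : ℕ) :
    ((m : ℝ) + 1) * Ring.choose a (m + 1) = (a - m) * Ring.choose a m := by
  have h := Ring.choose_smul_choose a (Nat.le_succ m)
  rw [Nat.succ_eq_add_one] at h
  have e : m + 1 - m = 1 := by omega
  rw [e, Ring.choose_one_right, Nat.choose_succ_self_right, nsmul_eq_mul] at h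
  push_cast at h
  linarith

lemma hc_rec (k m : ℕ) : ((m : ℝ) + 1) * hc k (m + 1) = ((k : ℝ) - 1 / 2 - m) * hc k m :=
  choose_rec _ m

lemma hc_zero_right (k : ℕ) : hc k 0 = 1 := Ring.choose_zero_right _

lemma hc_succ (k m : ℕ) : hc (k + 1) (m + 1) = hc k m + hc k (m + 1) := by
  have h := Ring.choose_succ_succ ((k : ℝ) - 1 / 2) m
  unfold hc
  rw [← h]
  congr 1
  push_cast
  ring

lemma hc_int (k m : ℕ) : ∃ z : ℤ, (4 : ℝ) ^ m * hc k m = z := by
  induction k generalizing m with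
  | zero =>
    refine ⟨(-1) ^ m * (Nat.centralBinom m : ℤ), ?_⟩
    induction m with
    | zero => simp [hc_zero_right]
    | succ m ih =>
      have h1 := hc_rec 0 m
      have h2 : ((m + 1 : ℕ) : ℝ) * ((Nat.centralBinom (m + 1) : ℕ) : ℝ) =
          ((2 * (2 * m + 1) * Nat.centralBinom m : ℕ) : ℝ) := by
        exact_mod_cast Nat.succ_mul_centralBinom_succ m
      have hm : ((m : ℝ) + 1) ≠ 0 := by positivity
      push_cast at ih h1 h2 ⊢
      apply mul_left_cancel₀ hm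
      calc ((m : ℝ) + 1) * (4 ^ (m + 1) * hc 0 (m + 1))
          = 4 ^ (m + 1) * (((m : ℝ) + 1) * hc 0 (m + 1)) := by ring
        _ = 4 ^ (m + 1) * ((0 - 1 / 2 - m) * hc 0 m) := by rw [h1]
        _ = 4 * (0 - 1 / 2 - m) * (4 ^ m * hc 0 m) := by ring
        _ = 4 * (0 - 1 / 2 - m) * ((-1) ^ m * (Nat.centralBinom m : ℝ)) := by rw [ih]
        _ = (-1) ^ (m + 1) * (2 * (2 * m + 1) * (Nat.centralBinom m : ℝ)) := by ring
        _ = (-1) ^ (m + 1) * (((m : ℝ) + 1) * (Nat.centralBinom (m + 1) : ℝ)) := by rw [h2]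
        _ = ((m : ℝ) + 1) * ((-1) ^ (m + 1) * (Nat.centralBinom (m + 1) : ℝ)) := by ring
  | succ k ih =>
    rcases m with _ | m
    · exact ⟨1, by simp [hc_zero_right]⟩
    · obtain ⟨z1, hz1⟩ := ih m
      obtain ⟨z2, hz2⟩ := ih (m + 1)
      refine ⟨4 * z1 + z2, ?_⟩
      rw [hc_succ]
      push_cast
      rw [← hz1, ← hz2]
      ring

lemma hc_abs_le (k m : ℕ) : |hc k m| ≤ 2 ^ k := by
  induction k generalizing m with
  | zero =>
    rw [pow_zero]
    induction m with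
    | zero => simp [hc_zero_right]
    | succ m ih =>
      have h1 := hc_rec 0 m
      have hm : (0 : ℝ) < (m : ℝ) + 1 := by positivity
      have h2 : ((m : ℝ) + 1) * |hc 0 (m + 1)| = ((m : ℝ) + 1 / 2) * |hc 0 m| := by
        have h3 : |((m : ℝ) + 1) * hc 0 (m + 1)| = |(((0 : ℕ) : ℝ) - 1 / 2 - m) * hc 0 m| := by
          rw [h1]
        rw [abs_mul, abs_mul, abs_of_pos hm] at h3
        rw [h3]
        congr 1
        rw [show (((0 : ℕ) : ℝ) - 1 / 2 - m) = -((m : ℝ) + 1 / 2) by push_cast; ring, abs_neg,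
          abs_of_pos (by positivity)]
      have h4 : ((m : ℝ) + 1 / 2) * |hc 0 m| ≤ ((m : ℝ) + 1) * 1 := by
        apply mul_le_mul _ ih (abs_nonneg _) (by positivity)
        linarith
      rw [← h2] at h4
      exact le_of_mul_le_mul_left h4 hm
  | succ k ih =>
    rcases m with _ | m
    · rw [hc_zero_right, abs_one]
      exact one_le_pow₀ (by norm_num)
    · rw [hc_succ]
      calc |hc k m + hc k (m + 1)| ≤ |hc k m| + |hc k (m + 1)| := abs_add_le _ _
        _ ≤ 2 ^ k + 2 ^ k := add_le_add (ih m) (ih (m + 1))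
        _ = 2 ^ (k + 1) := by ring

lemma hc_pos_of_le (k m : ℕ) (h : m ≤ k) : 0 < hc k m := by
  induction m with
  | zero => rw [hc_zero_right]; norm_num
  | succ m ih =>
    have h1 := hc_rec k m
    have h2 := ih (by omega)
    have h3 : (m : ℝ) + 1 ≤ k := by exact_mod_cast h
    have h4 : 0 < ((k : ℝ) - 1 / 2 - m) * hc k m := mul_pos (by linarith) h2
    rw [← h1] at h4
    exact (mul_pos_iff_of_pos_left (by positivity)).mp h4

lemma hc_sign (k r : ℕ) : 0 < (-1) ^ r * hc k (k + r) := by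
  induction r with
  | zero => simpa using hc_pos_of_le k k le_rfl
  | succ r ih =>
    have h1 := hc_rec k (k + r)
    have h4 : 0 < ((r : ℝ) + 1 / 2) * ((-1) ^ r * hc k (k + r)) := mul_pos (by positivity) ih
    have h5 : ((r : ℝ) + 1 / 2) * ((-1) ^ r * hc k (k + r)) =
        (((k + r : ℕ) : ℝ) + 1) * ((-1) ^ (r + 1) * hc k (k + r + 1)) := by
      calc ((r : ℝ) + 1 / 2) * ((-1) ^ r * hc k (k + r))
          = (-1) ^ (r + 1) * (((k : ℝ) - 1 / 2 - ((k + r : ℕ) : ℝ)) * hc k (k + r)) := by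
            push_cast; ring
        _ = (-1) ^ (r + 1) * ((((k + r : ℕ) : ℝ) + 1) * hc k (k + r + 1)) := by rw [h1]
        _ = _ := by ring
    rw [h5] at h4
    exact (mul_pos_iff_of_pos_left (by positivity)).mp h4

lemma hc_abs_eq (k m : ℕ) (h : k ≤ m) : |hc k m| = (-1) ^ (m - k) * hc k m := by
  obtain ⟨r, rfl⟩ : ∃ r, m = k + r := ⟨m - k, by omega⟩
  have h1 := hc_sign k r
  have e : k + r - k = r := by omega
  rw [e]
  rw [← abs_of_pos h1, abs_mul, abs_pow, abs_neg, abs_one, one_pow, one_mul]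

lemma hc_abs_ge (k m : ℕ) (h : k ≤ m) : 1 ≤ (4 : ℝ) ^ m * |hc k m| := by
  obtain ⟨z, hz⟩ := hc_int k m
  have hne : hc k m ≠ 0 := by
    intro h0
    have h1 := hc_abs_eq k m h
    obtain ⟨r, rfl⟩ : ∃ r, m = k + r := ⟨m - k, by omega⟩
    have h2 := hc_sign k r
    rw [h0] at h2
    simp at h2
  have hz0 : z ≠ 0 := by
    rintro rfl
    have : (4 : ℝ) ^ m * hc k m = 0 := by rw [hz]; simp
    rcases mul_eq_zero.mp this with h' | h'
    · exact absurd h' (by positivity)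
    · exact hne h'
  have h1 : (1 : ℤ) ≤ |z| := Int.one_le_abs hz0
  have h2 : (4 : ℝ) ^ m * |hc k m| = |(z : ℝ)| := by
    rw [← hz, abs_mul, abs_of_pos (by positivity : (0:ℝ) < 4 ^ m)]
  rw [h2]
  exact_mod_cast h1

end Pool.Agent.Lib.MP_a849c1_nt
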