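import Mathlib

/-!
Partial fractions with integer coefficients, stated in an arbitrary commutative ring.
-/

open Finset

namespace Pool.Agent.Lib.MP_a849c1_nt

/-- The universal partial fraction expansion of `V^N T^N A₀^n₀ A₁^n₁ A₂^n₂`, where the `A i`
behave like `1 / (1 - u_i T)`. -/
def PF (u : Fin 3 → ℤ) (V : ℤ) (k N n0 n1 n2 : ℕ) : Prop :=
  ∃ β : Fin 3 → ℕ → ℤ, (∀ i j, |β i j| ≤ (2 * |V|) ^ N) ∧
    ∀ (R : Type) [CommRing R] (T : R) (A : Fin 3 → R),
      (∀ i l, A i - A l = ((u i - u l : ℤ) : R) * T * A i * A l) →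
      (V : R) ^ N * T ^ N * (A 0 ^ n0 * A 1 ^ n1 * A 2 ^ n2) =
        ∑ i, ∑ j ∈ range k, (β i j : R) * (T ^ j * A i ^ (j + 1))

lemma PF_step {u : Fin 3 → ℤ} {V : ℤ} {k N : ℕ} {m0 m1 m2 l0 l1 l2 n0 n1 n2 : ℕ}
    (w : ℤ) (hw : |w| ≤ |V|)
    (h1 : PF u V k N m0 m1 m2) (h2 : PF u V k N l0 l1 l2)
    (hid : ∀ (R : Type) [CommRing R] (T : R) (A : Fin 3 → R),
      (∀ i l, A i - A l = ((u i - u l : ℤ) : R) * T * A i * A l) →
      (V : R) * T * (A 0 ^ n0 * A 1 ^ n1 * A 2 ^ n2) =
        (w : R) * (A 0 ^ m0 * A 1 ^ m1 * A 2 ^ m2 - A 0 ^ l0 * A 1 ^ l1 * A 2 ^ l2)) :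
    PF u V k (N + 1) n0 n1 n2 := by
  obtain ⟨β, hβ, hβ'⟩ := h1
  obtain ⟨γ, hγ, hγ'⟩ := h2
  refine ⟨fun i j => w * (β i j - γ i j), ?_, ?_⟩
  · intro i j
    rw [abs_mul]
    have e1 : |β i j - γ i j| ≤ |β i j| + |γ i j| := abs_sub _ _
    have e2 : |β i j - γ i j| ≤ 2 * (2 * |V|) ^ N := by
      linarith [hβ i j, hγ i j]
    calc |w| * |β i j - γ i j| ≤ |V| * (2 * (2 * |V|) ^ N) :=
          mul_le_mul hw e2 (abs_nonneg _) (abs_nonneg _)
      _ = (2 * |V|) ^ (N + 1) := by ring
  · intro R _ T A hA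
    have e1 := hβ' R T A hA
    have e2 := hγ' R T A hA
    have e3 := hid R T A hA
    calc (V : R) ^ (N + 1) * T ^ (N + 1) * (A 0 ^ n0 * A 1 ^ n1 * A 2 ^ n2)
        = (V : R) ^ N * T ^ N * ((V : R) * T * (A 0 ^ n0 * A 1 ^ n1 * A 2 ^ n2)) := by ring
      _ = (w : R) * ((V : R) ^ N * T ^ N * (A 0 ^ m0 * A 1 ^ m1 * A 2 ^ m2) -
            (V : R) ^ N * T ^ N * (A 0 ^ l0 * A 1 ^ l1 * A 2 ^ l2)) := by rw [e3]; ring
      _ = ∑ i, ∑ j ∈ range k, ((w * (β i j - γ i j) : ℤ) : R) * (T ^ j * A i ^ (j + 1)) := by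
          rw [e1, e2, ← Finset.sum_sub_distrib, Finset.mul_sum]
          apply Finset.sum_congr rfl
          intro i _
          rw [← Finset.sum_sub_distrib, Finset.mul_sum]
          apply Finset.sum_congr rfl
          intro j _
          push_cast
          ring

lemma PF_pure {u : Fin 3 → ℤ} {V : ℤ} {k N : ℕ} {n0 n1 n2 : ℕ} (i₀ : Fin 3) (hN : N < k)
    (h : ∀ (R : Type) [CommRing R] (A : Fin 3 → R),
      A 0 ^ n0 * A 1 ^ n1 * A 2 ^ n2 = A i₀ ^ (N + 1)) :
    PF u V k N n0 n1 n2 := by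
  refine ⟨fun i j => if i = i₀ ∧ j = N then V ^ N else 0, ?_, ?_⟩
  · intro i j
    by_cases hij : i = i₀ ∧ j = N
    · simp only [hij, and_self, if_true]
      rw [abs_pow]
      apply pow_le_pow_left₀ (abs_nonneg _)
      linarith [abs_nonneg V]
    · simp only [hij, if_false, abs_zero]
      positivity
  · intro R _ T A _
    rw [h R A]
    rw [Finset.sum_eq_single i₀]
    · rw [Finset.sum_eq_single N]
      · simp
        ring
      · intro j _ hj
        simp [hj]
      · intro hN'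
        exact absurd (Finset.mem_range.mpr hN) hN'
    · intro i _ hi
      apply Finset.sum_eq_zero
      intro j _
      simp [hi]
    · simp

/-- The partial fraction expansion exists. -/
theorem PF_all (u : Fin 3 → ℤ) (V : ℤ) (hV : V = (u 1 - u 0) * (u 2 - u 0) * (u 2 - u 1))
    (hV0 : V ≠ 0) (k : ℕ) :
    ∀ N n0 n1 n2 : ℕ, n0 ≤ k → n1 ≤ k → n2 ≤ k → n0 + n1 + n2 = N + 1 → PF u V k N n0 n1 n2 := by
  have h10 : u 1 - u 0 ≠ 0 := fun h => hV0 (by rw [hV, h]; ring)
  have h20 : u 2 - u 0 ≠ 0 := fun h => hV0 (by rw [hV, h]; ring)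
  have h21 : u 2 - u 1 ≠ 0 := fun h => hV0 (by rw [hV, h]; ring)
  have key : ∀ a b : ℤ, a ≠ 0 → V = a * b → |b| ≤ |V| := by
    intro a b ha hab
    rw [hab, abs_mul]
    have : 1 ≤ |a| := Int.one_le_abs ha
    nlinarith [abs_nonneg b]
  intro N
  induction N with
  | zero =>
    intro n0 n1 n2 h0 h1 h2 hn
    rcases Nat.eq_zero_or_pos n0 with e0 | e0
    · rcases Nat.eq_zero_or_pos n1 with e1 | e1
      · have e2 : n2 = 1 := by omega
        subst e0 e1 e2
        exact PF_pure 2 (by omega) (fun R _ A => by simp)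
      · have e1' : n1 = 1 := by omega
        have e2 : n2 = 0 := by omega
        subst e0 e1' e2
        exact PF_pure 1 (by omega) (fun R _ A => by simp)
    · have e0' : n0 = 1 := by omega
      have e1 : n1 = 0 := by omega
      have e2 : n2 = 0 := by omega
      subst e0' e1 e2
      exact PF_pure 0 (by omega) (fun R _ A => by simp)
  | succ N ih =>
    intro n0 n1 n2 h0 h1 h2 hn
    by_cases c01 : 0 < n0 ∧ 0 < n1
    · obtain ⟨a, rfl⟩ : ∃ a, n0 = a + 1 := ⟨n0 - 1, by omega⟩
      obtain ⟨b, rfl⟩ : ∃ b, n1 = b + 1 := ⟨n1 - 1, by omega⟩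
      refine PF_step (-((u 2 - u 0) * (u 2 - u 1))) ?_ (ih (a + 1) b n2 h0 (by omega) h2 (by omega))
        (ih a (b + 1) n2 (by omega) h1 h2 (by omega)) ?_
      · rw [abs_neg]
        exact key (u 1 - u 0) _ h10 (by rw [hV]; ring)
      · intro R _ T A hA
        have e := hA 0 1
        rw [hV]
        push_cast at e ⊢
        linear_combination (((u 2 : R) - u 0) * ((u 2 : R) - u 1) * (A 0 ^ a * A 1 ^ b * A 2 ^ n2)) * e
    · by_cases c02 : 0 < n0 ∧ 0 < n2
      · obtain ⟨a, rfl⟩ : ∃ a, n0 = a + 1 := ⟨n0 - 1, by omega⟩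
        obtain ⟨b, rfl⟩ : ∃ b, n2 = b + 1 := ⟨n2 - 1, by omega⟩
        refine PF_step (-((u 1 - u 0) * (u 2 - u 1))) ?_
          (ih (a + 1) n1 b h0 h1 (by omega) (by omega))
          (ih a n1 (b + 1) (by omega) h1 h2 (by omega)) ?_
        · rw [abs_neg]
          exact key (u 2 - u 0) _ h20 (by rw [hV]; ring)
        · intro R _ T A hA
          have e := hA 0 2
          rw [hV]
          push_cast at e ⊢
          linear_combination (((u 1 : R) - u 0) * ((u 2 : R) - u 1) * (A 0 ^ a * A 1 ^ n1 * A 2 ^ b)) * e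
      · by_cases c12 : 0 < n1 ∧ 0 < n2
        · obtain ⟨a, rfl⟩ : ∃ a, n1 = a + 1 := ⟨n1 - 1, by omega⟩
          obtain ⟨b, rfl⟩ : ∃ b, n2 = b + 1 := ⟨n2 - 1, by omega⟩
          refine PF_step (-((u 1 - u 0) * (u 2 - u 0))) ?_
            (ih n0 (a + 1) b h0 h1 (by omega) (by omega))
            (ih n0 a (b + 1) h0 (by omega) h2 (by omega)) ?_
          · rw [abs_neg]
            exact key (u 2 - u 1) _ h21 (by rw [hV]; ring)
          · intro R _ T A hA
            have e := hA 1 2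
            rw [hV]
            push_cast at e ⊢
            linear_combination (((u 1 : R) - u 0) * ((u 2 : R) - u 0) * (A 0 ^ n0 * A 1 ^ a * A 2 ^ b)) * e
        · -- at most one is non-zero
          rcases Nat.eq_zero_or_pos n0 with e0 | e0
          · rcases Nat.eq_zero_or_pos n1 with e1 | e1
            · have e2 : n2 = N + 1 + 1 := by omega
              subst e0 e1 e2
              exact PF_pure 2 (by omega) (fun R _ A => by simp)
            · have e2 : n2 = 0 := by
                rcases Nat.eq_zero_or_pos n2 with e | e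
                · exact e
                · exact absurd ⟨e1, e⟩ c12
              have e1' : n1 = N + 1 + 1 := by omega
              subst e0 e1' e2
              exact PF_pure 1 (by omega) (fun R _ A => by simp)
          · have e1 : n1 = 0 := by
              rcases Nat.eq_zero_or_pos n1 with e | e
              · exact e
              · exact absurd ⟨e0, e⟩ c01
            have e2 : n2 = 0 := by
              rcases Nat.eq_zero_or_pos n2 with e | e
              · exact e
              · exact absurd ⟨e0, e⟩ c02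
            have e0' : n0 = N + 1 + 1 := by omega
            subst e0' e1 e2
            exact PF_pure 0 (by omega) (fun R _ A => by simp)

end Pool.Agent.Lib.MP_a849c1_nt
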