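import Mathlib
import Pool.Agent.Lib.MP_a849c1_nt.HalfChoose
import Pool.Agent.Lib.MP_a849c1_nt.PartialFractions

/-!
Hermite-Pade type linear forms in `sqrt (1 - u_i / L)`.
-/

open Finset

namespace Pool.Agent.Lib.MP_a849c1_nt

/-- the power series of `1 / (1 - u T)` -/
noncomputable def geo (u : ℝ) : PowerSeries ℝ := PowerSeries.rescale u (PowerSeries.mk 1)

lemma coeff_geo (u : ℝ) (n : ℕ) : PowerSeries.coeff n (geo u) = u ^ n := by
  simp [geo, PowerSeries.coeff_rescale]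

lemma geo_mul (u : ℝ) : geo u * (1 - PowerSeries.C u * PowerSeries.X) = 1 := by
  have h := congrArg (PowerSeries.rescale u) (PowerSeries.mk_one_mul_one_sub_eq_one (S := ℝ))
  rw [map_mul, map_sub, map_one, PowerSeries.rescale_X] at h
  exact h

lemma geo_sub (u v : ℝ) :
    geo u - geo v = PowerSeries.C (u - v) * PowerSeries.X * geo u * geo v := by
  have h1 := geo_mul u
  have h2 := geo_mul v
  rw [map_sub]
  calc geo u - geo v = geo u * (geo v * (1 - PowerSeries.C v * PowerSeries.X)) -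
        (geo u * (1 - PowerSeries.C u * PowerSeries.X)) * geo v := by rw [h1, h2]; ring
    _ = _ := by ring

lemma coeff_geo_pow (u : ℝ) (j m : ℕ) :
    PowerSeries.coeff m (PowerSeries.X ^ j * geo u ^ (j + 1)) = (m.choose j : ℝ) * u ^ (m - j) := by
  rw [PowerSeries.coeff_X_pow_mul']
  split_ifs with h
  · rw [geo, ← map_pow, PowerSeries.mk_one_pow_eq_mk_choose_add, PowerSeries.coeff_rescale,
      PowerSeries.coeff_mk]
    have : j + (m - j) = m := by omega
    rw [this]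
    ring
  · rw [Nat.choose_eq_zero_of_lt (by omega)]
    simp

lemma coeff_mul_nonneg {f g : PowerSeries ℝ} (hf : ∀ n, 0 ≤ PowerSeries.coeff n f)
    (hg : ∀ n, 0 ≤ PowerSeries.coeff n g) (n : ℕ) : 0 ≤ PowerSeries.coeff n (f * g) := by
  rw [PowerSeries.coeff_mul]
  exact Finset.sum_nonneg fun p _ => mul_nonneg (hf _) (hg _)

lemma coeff_pow_nonneg {f : PowerSeries ℝ} (hf : ∀ n, 0 ≤ PowerSeries.coeff n f)
    (k n : ℕ) : 0 ≤ PowerSeries.coeff n (f ^ k) := by
  induction k generalizing n with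
  | zero =>
    rw [pow_zero, PowerSeries.coeff_one]
    split_ifs <;> norm_num
  | succ k ih =>
    rw [pow_succ]
    exact coeff_mul_nonneg ih hf n

lemma hasSum_half (k j : ℕ) (u x : ℝ) (hu : 0 ≤ u) (hx : 0 ≤ x) (hux : u * x < 1) :
    HasSum (fun m : ℕ => hc k m * (-x) ^ m * ((m.choose j : ℝ) * u ^ (m - j)))
      (hc k j * (-x) ^ j * (1 - u * x) ^ ((k : ℝ) - 1 / 2 - j)) := by
  have h1 := (Real.one_add_rpow_hasFPowerSeriesOnBall_zero (a := (k : ℝ) - 1 / 2 - j)).hasSum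
    (y := -(u * x)) (by
      simp only [Metric.mem_eball, edist_zero_right]
      rw [← ofReal_norm, norm_neg, Real.norm_of_nonneg (by positivity)]
      exact ENNReal.ofReal_lt_one.mpr hux)
  simp only [binomialSeries, FormalMultilinearSeries.ofScalars_apply_eq, zero_add, smul_eq_mul] at h1
  have h2 := h1.mul_left (hc k j * (-x) ^ j)
  rw [← sub_eq_add_neg] at h2
  have hinj : Function.Injective (fun r : ℕ => r + j) := add_left_injective j
  rw [← hinj.hasSum_iff]
  · refine h2.congr_fun ?_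
    intro r
    have h3 := Ring.choose_smul_choose ((k : ℝ) - 1 / 2) (Nat.le_add_left j r)
    rw [nsmul_eq_mul, Nat.add_sub_cancel] at h3
    simp only [Function.comp_apply, Nat.add_sub_cancel]
    have h4 : ((r + j).choose j : ℝ) * hc k (r + j) =
        hc k j * Ring.choose ((k : ℝ) - 1 / 2 - j) r := h3
    calc hc k (r + j) * (-x) ^ (r + j) * (((r + j).choose j : ℝ) * u ^ r)
        = (((r + j).choose j : ℝ) * hc k (r + j)) * (-x) ^ (r + j) * u ^ r := by ring
      _ = (hc k j * Ring.choose ((k : ℝ) - 1 / 2 - j) r) * (-x) ^ (r + j) * u ^ r := by rw [h4]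
      _ = _ := by rw [pow_add]; rw [show -(u * x) = (-x) * u by ring, mul_pow]; ring
  · intro m hm
    have : m < j := by
      by_contra h
      exact hm ⟨m - j, by simp only; omega⟩
    rw [Nat.choose_eq_zero_of_lt this]
    simp

lemma hasSum_geo (j : ℕ) (u x : ℝ) (hu : 0 ≤ u) (hx : 0 ≤ x) (hux : u * x < 1) :
    HasSum (fun m : ℕ => x ^ m * ((m.choose j : ℝ) * u ^ (m - j)))
      (x ^ j * (1 / (1 - u * x)) ^ (j + 1)) := by
  have h1 := (hasSum_choose_mul_geometric_of_norm_lt_one j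
    (r := u * x) (by rw [Real.norm_of_nonneg (by positivity)]; exact hux)).mul_left (x ^ j)
  have hinj : Function.Injective (fun r : ℕ => r + j) := add_left_injective j
  rw [← hinj.hasSum_iff]
  · rw [one_div_pow]
    refine h1.congr_fun ?_
    intro r
    simp only [Function.comp_apply, Nat.add_sub_cancel]
    rw [pow_add, mul_pow]
    ring
  · intro m hm
    have : m < j := by
      by_contra h
      exact hm ⟨m - j, by simp only; omega⟩
    rw [Nat.choose_eq_zero_of_lt this]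
    simp

lemma rpow_half (k j : ℕ) (hj : j < k) (y : ℝ) (hy : 0 < y) :
    y ^ ((k : ℝ) - 1 / 2 - j) = y ^ (k - 1 - j) * √y := by
  have h1 : ((k : ℝ) - 1 / 2 - j) = ((k - 1 - j : ℕ) : ℝ) + 1 / 2 := by
    have h2 : ((k - 1 - j : ℕ) : ℝ) = (k : ℝ) - 1 - j := by
      have h3 : k - 1 - j + 1 + j = k := by omega
      have h4 : ((k - 1 - j : ℕ) : ℝ) + 1 + j = k := by exact_mod_cast h3
      linarith
    rw [h2]; ring
  rw [h1, Real.rpow_add hy, Real.rpow_natCast, Real.sqrt_eq_rpow]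

theorem pade (u : Fin 3 → ℤ) (V L : ℤ) (hV : V = (u 1 - u 0) * (u 2 - u 0) * (u 2 - u 1))
    (hV0 : 0 < V) (hu : ∀ i, 0 ≤ u i) (hL : ∀ i, 2 * u i ≤ L) (hL0 : 0 < L)
    (k : ℕ) (hk : 1 ≤ k) :
    ∃ q : Fin 3 → ℤ, (∀ i, |(q i : ℝ)| ≤ (128 * (V : ℝ) ^ 3 * L) ^ k) ∧
      1 ≤ (16 * (L : ℝ) ^ 2) ^ k * |∑ i, (q i : ℝ) * √(1 - u i / L)| ∧
      ((L : ℝ) ^ 2) ^ k * |∑ i, (q i : ℝ) * √(1 - u i / L)| ≤ (64 * (V : ℝ) ^ 3) ^ k := by
  obtain ⟨N, hN⟩ : ∃ N, N + 1 = 3 * k := ⟨3 * k - 1, by omega⟩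
  obtain ⟨β, hβ, hid⟩ := PF_all u V hV hV0.ne' k N k k k le_rfl le_rfl le_rfl (by omega)
  have hLr : (0 : ℝ) < L := by exact_mod_cast hL0
  have hVr : (1 : ℝ) ≤ V := by exact_mod_cast hV0
  set x : ℝ := 1 / L with hx
  have hx0 : 0 < x := by positivity
  have hLx : (L : ℝ) * x = 1 := by rw [hx]; field_simp
  have hur : ∀ i, (0 : ℝ) ≤ u i := fun i => by exact_mod_cast hu i
  have hux : ∀ i, (u i : ℝ) * x ≤ 1 / 2 := by
    intro i
    have h1 : (2 : ℝ) * u i ≤ L := by exact_mod_cast hL i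
    rw [hx, mul_one_div, div_le_iff₀ hLr]
    linarith
  have hux1 : ∀ i, (u i : ℝ) * x < 1 := fun i => lt_of_le_of_lt (hux i) (by norm_num)
  -- the power series identity
  have hps := hid (PowerSeries ℝ) PowerSeries.X (fun i => geo (u i)) (by
    intro i l
    have h := geo_sub (u i) (u l)
    rw [h]
    have h2 : (PowerSeries.C ((u i : ℝ) - (u l : ℝ))) = (((u i - u l : ℤ)) : PowerSeries ℝ) := by
      rw [← Int.cast_sub, map_intCast]
    rw [h2])
  set F : PowerSeries ℝ := geo (u 0) ^ k * geo (u 1) ^ k * geo (u 2) ^ k with hF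
  have hFnn : ∀ n, 0 ≤ PowerSeries.coeff n F := by
    have h1 : ∀ i, ∀ n, 0 ≤ PowerSeries.coeff n (geo (u i)) := by
      intro i n
      rw [coeff_geo]
      exact pow_nonneg (hur i) n
    exact coeff_mul_nonneg (coeff_mul_nonneg (coeff_pow_nonneg (h1 0) k)
      (coeff_pow_nonneg (h1 1) k)) (coeff_pow_nonneg (h1 2) k)
  have hF0 : PowerSeries.coeff 0 F = 1 := by
    have h1 : ∀ i, PowerSeries.constantCoeff (geo (u i)) = 1 := by
      intro i
      have := coeff_geo (u i) 0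
      rw [PowerSeries.coeff_zero_eq_constantCoeff] at this
      simpa using this
    rw [PowerSeries.coeff_zero_eq_constantCoeff, hF, map_mul, map_mul, map_pow, map_pow, map_pow,
      h1, h1, h1]
    simp
  set e : ℕ → ℝ := fun m => PowerSeries.coeff m
    ((V : PowerSeries ℝ) ^ N * PowerSeries.X ^ N * F) with he
  have heC : ∀ m, e m = (V : ℝ) ^ N * if N ≤ m then PowerSeries.coeff (m - N) F else 0 := by
    intro m
    rw [he]
    simp only
    have h1 : (V : PowerSeries ℝ) ^ N = PowerSeries.C ((V : ℝ) ^ N) := by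
      rw [map_pow, map_intCast]
    rw [h1, mul_assoc, PowerSeries.coeff_C_mul, PowerSeries.coeff_X_pow_mul']
  have he_nonneg : ∀ m, 0 ≤ e m := by
    intro m
    rw [heC]
    apply mul_nonneg (by positivity)
    split_ifs
    · exact hFnn _
    · exact le_rfl
  have he_lt : ∀ m, m < N → e m = 0 := by
    intro m hm
    rw [heC, if_neg (by omega), mul_zero]
  have he_N : e N = (V : ℝ) ^ N := by
    rw [heC, if_pos le_rfl, Nat.sub_self, hF0, mul_one]
  have he_sum : ∀ m, e m = ∑ i, ∑ j ∈ range k,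
      (β i j : ℝ) * ((m.choose j : ℝ) * (u i : ℝ) ^ (m - j)) := by
    intro m
    rw [he]
    simp only
    rw [hps, map_sum]
    apply Finset.sum_congr rfl
    intro i _
    rw [map_sum]
    apply Finset.sum_congr rfl
    intro j _
    have h1 : (β i j : PowerSeries ℝ) = PowerSeries.C (β i j : ℝ) := by rw [map_intCast]
    rw [h1, PowerSeries.coeff_C_mul, coeff_geo_pow]
  -- the two sums
  set Z : ℝ := ∑ i, ∑ j ∈ range k,
    (β i j : ℝ) * (hc k j * (-x) ^ j * (1 - u i * x) ^ ((k : ℝ) - 1 / 2 - j)) with hZ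
  have hZsum : HasSum (fun m => hc k m * (-x) ^ m * e m) Z := by
    have h1 : ∀ i ∈ (Finset.univ : Finset (Fin 3)), HasSum (fun m => ∑ j ∈ range k,
        (β i j : ℝ) * (hc k m * (-x) ^ m * ((m.choose j : ℝ) * (u i : ℝ) ^ (m - j))))
        (∑ j ∈ range k,
          (β i j : ℝ) * (hc k j * (-x) ^ j * (1 - u i * x) ^ ((k : ℝ) - 1 / 2 - j))) := by
      intro i _
      apply hasSum_sum
      intro j _
      exact (hasSum_half k j (u i) x (hur i) hx0.le (hux1 i)).mul_left _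
    refine (hasSum_sum h1).congr_fun ?_
    intro m
    rw [he_sum m, Finset.mul_sum]
    apply Finset.sum_congr rfl
    intro i _
    rw [Finset.mul_sum]
    apply Finset.sum_congr rfl
    intro j _
    ring
  have hYsum : HasSum (fun m => x ^ m * e m)
      ((V : ℝ) ^ N * x ^ N * ((1 / (1 - u 0 * x)) ^ k * (1 / (1 - u 1 * x)) ^ k *
        (1 / (1 - u 2 * x)) ^ k)) := by
    have h0 := hid ℝ x (fun i => 1 / (1 - u i * x)) (by
      intro i l
      have e1 : (1 - (u i : ℝ) * x) ≠ 0 := by linarith [hux1 i]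
      have e2 : (1 - (u l : ℝ) * x) ≠ 0 := by linarith [hux1 l]
      push_cast
      have e3 : ((u i : ℝ) - u l) * x = (1 - (u l : ℝ) * x) - (1 - (u i : ℝ) * x) := by ring
      rw [e3]
      generalize (1 - (u i : ℝ) * x) = a at e1
      generalize (1 - (u l : ℝ) * x) = b at e2
      field_simp)
    rw [h0]
    have h1 : ∀ i ∈ (Finset.univ : Finset (Fin 3)), HasSum (fun m => ∑ j ∈ range k,
        (β i j : ℝ) * (x ^ m * ((m.choose j : ℝ) * (u i : ℝ) ^ (m - j))))
        (∑ j ∈ range k,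
          (β i j : ℝ) * (x ^ j * (1 / (1 - u i * x)) ^ (j + 1))) := by
      intro i _
      apply hasSum_sum
      intro j _
      exact (hasSum_geo j (u i) x (hur i) hx0.le (hux1 i)).mul_left _
    refine (hasSum_sum h1).congr_fun ?_
    intro m
    rw [he_sum m, Finset.mul_sum]
    apply Finset.sum_congr rfl
    intro i _
    rw [Finset.mul_sum]
    apply Finset.sum_congr rfl
    intro j _
    ring
  have hSsum : HasSum (fun m => |hc k m| * x ^ m * e m) ((-1) ^ k * Z) := by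
    refine (hZsum.mul_left ((-1) ^ k)).congr_fun ?_
    intro m
    rcases lt_or_ge m N with h | h
    · rw [he_lt m h]; ring
    · have hkm : k ≤ m := by omega
      rw [hc_abs_eq k m hkm, neg_pow x m]
      have h1 : ((-1 : ℝ)) ^ (m - k) = (-1) ^ k * (-1) ^ m := by
        obtain ⟨r, rfl⟩ : ∃ r, m = k + r := ⟨m - k, by omega⟩
        rw [Nat.add_sub_cancel_left, pow_add, ← mul_assoc, ← pow_add, ← two_mul, pow_mul]
        simp
      rw [h1]
      ring
  have hSlow : |hc k N| * x ^ N * (V : ℝ) ^ N ≤ (-1) ^ k * Z := by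
    have h1 := le_hasSum hSsum N (fun m _ => by
      have := he_nonneg m
      positivity)
    rw [he_N] at h1
    exact h1
  have hS0 : 0 ≤ (-1) ^ k * Z := le_trans (by positivity) hSlow
  have hZabs : |Z| = (-1) ^ k * Z := by
    rw [← abs_of_nonneg hS0, abs_mul, abs_pow, abs_neg, abs_one, one_pow, one_mul]
  have hSup : (-1) ^ k * Z ≤ 2 ^ k * ((V : ℝ) ^ N * x ^ N * 8 ^ k) := by
    have h1 : (-1) ^ k * Z ≤ 2 ^ k * ((V : ℝ) ^ N * x ^ N * ((1 / (1 - u 0 * x)) ^ k *
        (1 / (1 - u 1 * x)) ^ k * (1 / (1 - u 2 * x)) ^ k)) := by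
      refine hasSum_le ?_ hSsum (hYsum.mul_left (2 ^ k))
      intro m
      have h2 := hc_abs_le k m
      have h3 : 0 ≤ x ^ m * e m := mul_nonneg (by positivity) (he_nonneg m)
      calc |hc k m| * x ^ m * e m = |hc k m| * (x ^ m * e m) := by ring
        _ ≤ 2 ^ k * (x ^ m * e m) := mul_le_mul_of_nonneg_right h2 h3
    refine h1.trans ?_
    have h4 : ∀ i, (0 : ℝ) ≤ 1 / (1 - u i * x) ∧ 1 / (1 - u i * x) ≤ 2 := by
      intro i
      have e1 : (1 / 2 : ℝ) ≤ 1 - u i * x := by linarith [hux i]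
      constructor
      · apply div_nonneg (by norm_num); linarith
      · rw [div_le_iff₀ (by linarith)]
        linarith
    have h5 : ∀ i, (1 / (1 - u i * x)) ^ k ≤ (2 : ℝ) ^ k := fun i =>
      pow_le_pow_left₀ (h4 i).1 (h4 i).2 k
    have h6 : ∀ i, (0 : ℝ) ≤ (1 / (1 - u i * x)) ^ k := fun i => pow_nonneg (h4 i).1 k
    have h7 : (1 / (1 - u 0 * x)) ^ k * (1 / (1 - u 1 * x)) ^ k * (1 / (1 - u 2 * x)) ^ k ≤
        (8 : ℝ) ^ k := by
      calc _ ≤ (2 : ℝ) ^ k * 2 ^ k * 2 ^ k := by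
            apply mul_le_mul (mul_le_mul (h5 0) (h5 1) (h6 1) (by positivity)) (h5 2) (h6 2)
              (by positivity)
        _ = 8 ^ k := by rw [← mul_pow, ← mul_pow]; norm_num
    apply mul_le_mul_of_nonneg_left _ (by positivity)
    apply mul_le_mul_of_nonneg_left h7 (by positivity)
  -- the integers
  choose z hz using hc_int k
  set q : Fin 3 → ℤ := fun i => ∑ j ∈ range k,
    β i j * (z j * 4 ^ (k - 1 - j)) * ((-1) ^ j * (L - u i) ^ (k - 1 - j)) with hq
  have hqZ : ∑ i, (q i : ℝ) * √(1 - u i / L) = (4 * L) ^ (k - 1) * Z := by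
    rw [hZ, Finset.mul_sum]
    apply Finset.sum_congr rfl
    intro i _
    rw [hq]
    simp only
    push_cast
    rw [Finset.sum_mul, Finset.mul_sum]
    apply Finset.sum_congr rfl
    intro j hj
    have hjk : j < k := Finset.mem_range.mp hj
    have hy : 0 < 1 - (u i : ℝ) * x := by linarith [hux1 i]
    have e0 : 1 - (u i : ℝ) / L = 1 - (u i : ℝ) * x := by rw [hx]; ring
    rw [e0, rpow_half k j hjk _ hy, ← hz j]
    obtain ⟨r, hr⟩ : ∃ r, k - 1 - j = r := ⟨_, rfl⟩
    have hk1 : k - 1 = r + j := by omega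
    rw [hr, hk1]
    have e1 : (L : ℝ) - u i = L * (1 - u i * x) := by
      rw [mul_sub, mul_one, mul_left_comm, hLx, mul_one]
    rw [e1, mul_pow, mul_pow (4 : ℝ) (L : ℝ) (r + j), pow_add (4 : ℝ), pow_add (L : ℝ),
      neg_pow x j]
    have e2 : (L : ℝ) ^ j * x ^ j = 1 := by rw [← mul_pow, hLx, one_pow]
    linear_combination (-(β i j : ℝ) * hc k j * 4 ^ j * 4 ^ r * (-1) ^ j * (L : ℝ) ^ r *
      (1 - (u i : ℝ) * x) ^ r * √(1 - (u i : ℝ) * x)) * e2
  have habs : |∑ i, (q i : ℝ) * √(1 - u i / L)| = (4 * L) ^ (k - 1) * ((-1) ^ k * Z) := by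
    rw [hqZ, abs_mul, hZabs, abs_of_nonneg (by positivity)]
  obtain ⟨κ, hκ⟩ : ∃ κ, k = κ + 1 := ⟨k - 1, by omega⟩
  have hNκ : N = 3 * κ + 2 := by omega
  have hLN : (L : ℝ) ^ N * x ^ N = 1 := by rw [← mul_pow, hLx, one_pow]
  refine ⟨q, ?_, ?_, ?_⟩
  · intro i
    have h1 : |(q i : ℝ)| ≤ ∑ j ∈ range k, (2 * (V : ℝ)) ^ N * (4 ^ κ * 2 ^ k * (L : ℝ) ^ κ) := by
      rw [hq]
      simp only
      push_cast
      refine (Finset.abs_sum_le_sum_abs _ _).trans ?_
      apply Finset.sum_le_sum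
      intro j hj
      have hjk : j < k := Finset.mem_range.mp hj
      have e1 : |(β i j : ℝ)| ≤ (2 * (V : ℝ)) ^ N := by
        have h := hβ i j
        rw [abs_of_pos hV0] at h
        rw [← Int.cast_abs]
        exact_mod_cast h
      have e2 : |(z j : ℝ)| ≤ 4 ^ j * 2 ^ k := by
        rw [← hz j, abs_mul, abs_of_pos (by positivity : (0:ℝ) < 4 ^ j)]
        exact mul_le_mul_of_nonneg_left (hc_abs_le k j) (by positivity)
      have e3 : |(L : ℝ) - u i| ≤ L := by
        have e4 : (2 : ℝ) * u i ≤ L := by exact_mod_cast hL i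
        rw [abs_of_nonneg (by linarith [hur i])]
        linarith [hur i]
      have e5 : |(L : ℝ) - u i| ^ (k - 1 - j) ≤ (L : ℝ) ^ κ := by
        have hL1 : (1 : ℝ) ≤ L := by exact_mod_cast hL0
        calc |(L : ℝ) - u i| ^ (k - 1 - j) ≤ (L : ℝ) ^ (k - 1 - j) :=
              pow_le_pow_left₀ (abs_nonneg _) e3 _
          _ ≤ (L : ℝ) ^ κ := pow_le_pow_right₀ hL1 (by omega)
      rw [abs_mul, abs_mul, abs_mul, abs_mul, abs_pow, abs_pow, abs_pow, abs_neg, abs_one, one_pow,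
        one_mul, mul_assoc]
      apply mul_le_mul e1 _ (by positivity) (by positivity)
      apply mul_le_mul _ e5 (by positivity) (by positivity)
      have e6 : |(4 : ℝ)| = 4 := by norm_num
      rw [e6]
      calc |(z j : ℝ)| * 4 ^ (k - 1 - j) ≤ (4 ^ j * 2 ^ k) * 4 ^ (k - 1 - j) :=
            mul_le_mul_of_nonneg_right e2 (by positivity)
        _ = 4 ^ (j + (k - 1 - j)) * 2 ^ k := by rw [pow_add]; ring
        _ = 4 ^ κ * 2 ^ k := by congr 2; omega
    refine h1.trans ?_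
    rw [Finset.sum_const, Finset.card_range, nsmul_eq_mul]
    have hk2 : (k : ℝ) ≤ 2 ^ k := by exact_mod_cast (Nat.lt_two_pow_self (n := k)).le
    have e7 : (2 * (V : ℝ)) ^ N ≤ (2 * (V : ℝ)) ^ (3 * k) :=
      pow_le_pow_right₀ (by linarith) (by omega)
    have e8 : (4 : ℝ) ^ κ ≤ 4 ^ k := pow_le_pow_right₀ (by norm_num) (by omega)
    have e9 : (L : ℝ) ^ κ ≤ (L : ℝ) ^ k := by
      have hL1 : (1 : ℝ) ≤ L := by exact_mod_cast hL0
      exact pow_le_pow_right₀ hL1 (by omega)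
    calc (k : ℝ) * ((2 * (V : ℝ)) ^ N * (4 ^ κ * 2 ^ k * (L : ℝ) ^ κ))
        ≤ 2 ^ k * ((2 * (V : ℝ)) ^ (3 * k) * (4 ^ k * 2 ^ k * (L : ℝ) ^ k)) := by
          apply mul_le_mul hk2 _ (by positivity) (by positivity)
          apply mul_le_mul e7 _ (by positivity) (by positivity)
          apply mul_le_mul _ e9 (by positivity) (by positivity)
          exact mul_le_mul_of_nonneg_right e8 (by positivity)
      _ = (128 * (V : ℝ) ^ 3 * L) ^ k := by
          rw [mul_pow 2 (V : ℝ) (3 * k), mul_pow, mul_pow, pow_mul (2 : ℝ) 3 k,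
            pow_mul (V : ℝ) 3 k]
          have : (128 : ℝ) = 2 * (2 ^ 3) * 4 * 2 := by norm_num
          rw [this, mul_pow, mul_pow, mul_pow]
          ring
  · rw [habs]
    have h1 := hc_abs_ge k N (by omega)
    have h2 : (1 : ℝ) ≤ (V : ℝ) ^ N := one_le_pow₀ hVr
    have h3 : 1 ≤ (4 : ℝ) ^ N * |hc k N| * (V : ℝ) ^ N := by
      calc (1 : ℝ) = 1 * 1 := by ring
        _ ≤ (4 ^ N * |hc k N|) * (V : ℝ) ^ N := mul_le_mul h1 h2 (by norm_num) (by positivity)
    refine h3.trans ?_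
    have h4 : (4 : ℝ) ^ N * |hc k N| * (V : ℝ) ^ N =
        (16 * (L : ℝ) ^ 2) ^ k * ((4 * L) ^ (k - 1) * (|hc k N| * x ^ N * (V : ℝ) ^ N)) := by
      have e1 : (16 * (L : ℝ) ^ 2) ^ k * (4 * L) ^ (k - 1) = 4 ^ N * (L : ℝ) ^ N := by
        rw [hκ, Nat.add_sub_cancel, hNκ]
        have e0 : (16 : ℝ) ^ (κ + 1) = 4 ^ (κ + 1) * 4 ^ (κ + 1) := by rw [← mul_pow]; norm_num
        rw [mul_pow, e0]
        ring
      calc (4 : ℝ) ^ N * |hc k N| * (V : ℝ) ^ N
          = 4 ^ N * |hc k N| * (V : ℝ) ^ N * ((L : ℝ) ^ N * x ^ N) := by rw [hLN, mul_one]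
        _ = (4 ^ N * (L : ℝ) ^ N) * (|hc k N| * x ^ N * (V : ℝ) ^ N) := by ring
        _ = _ := by rw [← e1]; ring
    rw [h4]
    apply mul_le_mul_of_nonneg_left _ (by positivity)
    exact mul_le_mul_of_nonneg_left hSlow (by positivity)
  · rw [habs]
    calc ((L : ℝ) ^ 2) ^ k * ((4 * L) ^ (k - 1) * ((-1) ^ k * Z))
        ≤ ((L : ℝ) ^ 2) ^ k * ((4 * L) ^ (k - 1) * (2 ^ k * ((V : ℝ) ^ N * x ^ N * 8 ^ k))) := by
          apply mul_le_mul_of_nonneg_left _ (by positivity)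
          exact mul_le_mul_of_nonneg_left hSup (by positivity)
      _ = 4 ^ κ * 16 ^ k * (V : ℝ) ^ N * ((L : ℝ) ^ N * x ^ N) := by
          have e1 : ((L : ℝ) ^ 2) ^ k * (4 * L) ^ (k - 1) = 4 ^ κ * (L : ℝ) ^ N := by
            rw [hκ, Nat.add_sub_cancel, hNκ]
            ring
          have e2 : (16 : ℝ) ^ k = 2 ^ k * 8 ^ k := by rw [← mul_pow]; norm_num
          rw [e2]
          calc _ = (((L : ℝ) ^ 2) ^ k * (4 * L) ^ (k - 1)) * (2 ^ k * ((V : ℝ) ^ N * x ^ N * 8 ^ k)) := by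
                ring
            _ = _ := by rw [e1]; ring
      _ = 4 ^ κ * 16 ^ k * (V : ℝ) ^ N := by rw [hLN, mul_one]
      _ ≤ 4 ^ k * 16 ^ k * ((V : ℝ) ^ 3) ^ k := by
          rw [← pow_mul]
          apply mul_le_mul _ _ (by positivity) (by positivity)
          · apply mul_le_mul_of_nonneg_right _ (by positivity)
            exact pow_le_pow_right₀ (by norm_num) (by omega)
          · exact pow_le_pow_right₀ hVr (by omega)
      _ = (64 * (V : ℝ) ^ 3) ^ k := by rw [← mul_pow, ← mul_pow]; norm_num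

end Pool.Agent.Lib.MP_a849c1_nt
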