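import Mathlib
import Pool.Agent.Lib.MP_a849c1_nt.Pade

/-!
The upper bound: a solution `X` cannot be much larger than another solution `B` which is itself
much larger than the three coefficients.
-/

open Finset

namespace Pool.Agent.Lib.MP_a849c1_nt

/-- the choice of `k` -/
lemma exists_k (H L X : ℕ) (hH : 8 ≤ H) (hHL : H ^ 10 ≤ L) (hX : L ^ 28 ≤ X) :
    ∃ k : ℕ, 1 ≤ k ∧ 2 * (H * L ^ 3) ^ k ≤ X ∧ 4 * L ^ 2 * X * H ^ k < L ^ (4 * k) := by
  have hHle : H ≤ L := (Nat.le_self_pow (by norm_num) H).trans hHL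
  have hL8 : 8 ≤ L := hH.trans hHle
  have hL0 : 0 < L := by omega
  have hX0 : 0 < X := lt_of_lt_of_le (pow_pos hL0 28) hX
  have hex : ∃ k : ℕ, 4 * L ^ 2 * X * H ^ k < L ^ (4 * k) := by
    have h1 : 1 < L ^ 3 := Nat.one_lt_pow (by norm_num) (by omega)
    obtain ⟨k, hk⟩ := pow_unbounded_of_one_lt (4 * L ^ 2 * X) h1
    refine ⟨k, ?_⟩
    have h2 : H ^ k ≤ L ^ k := Nat.pow_le_pow_left hHle k
    have h3 : L ^ (4 * k) = (L ^ 3) ^ k * L ^ k := by rw [← pow_mul, ← pow_add]; congr 1; ring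
    rw [h3]
    exact Nat.mul_lt_mul_of_lt_of_le hk h2 (pow_pos hL0 k)
  classical
  set k := Nat.find hex with hkdef
  have hk : 4 * L ^ 2 * X * H ^ k < L ^ (4 * k) := Nat.find_spec hex
  have hHpos : ∀ n, 0 < H ^ n := fun n => pow_pos (by omega) n
  have hk8 : 8 ≤ k := by
    by_contra hlt
    push Not at hlt
    have h1 : L ^ (4 * k) ≤ L ^ 28 := Nat.pow_le_pow_right hL0 (by omega)
    have h2 : X ≤ 4 * L ^ 2 * X * H ^ k := by
      have h3 : 1 ≤ 4 * L ^ 2 * H ^ k := Nat.mul_pos (by positivity) (hHpos k)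
      calc X = X * 1 := (mul_one X).symm
        _ ≤ X * (4 * L ^ 2 * H ^ k) := Nat.mul_le_mul_left X h3
        _ = _ := by ring
    omega
  obtain ⟨m, hm⟩ : ∃ m, k = m + 8 := ⟨k - 8, by omega⟩
  refine ⟨k, by omega, ?_, hk⟩
  by_contra hcon
  push Not at hcon
  have hmin : L ^ (4 * (m + 7)) ≤ 4 * L ^ 2 * X * H ^ (m + 7) := by
    have := Nat.find_min hex (m := m + 7) (by omega)
    omega
  rw [hm] at hcon
  have h1 : L ^ (m + 2) * L ^ (3 * m + 26) < H ^ (2 * m + 16) * L ^ (3 * m + 26) := by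
    calc L ^ (m + 2) * L ^ (3 * m + 26) = L ^ (4 * (m + 7)) := by rw [← pow_add]; congr 1; ring
      _ ≤ 4 * L ^ 2 * X * H ^ (m + 7) := hmin
      _ < 4 * L ^ 2 * (2 * (H * L ^ 3) ^ (m + 8)) * H ^ (m + 7) := by
          apply Nat.mul_lt_mul_of_pos_right _ (hHpos _)
          exact Nat.mul_lt_mul_of_pos_left hcon (by positivity)
      _ = 8 * (H ^ (2 * m + 15) * L ^ (3 * m + 26)) := by
          rw [mul_pow, ← pow_mul]
          ring
      _ ≤ H * (H ^ (2 * m + 15) * L ^ (3 * m + 26)) := Nat.mul_le_mul_right _ hH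
      _ = _ := by ring
  have h2 : L ^ (m + 2) < H ^ (2 * m + 16) := lt_of_mul_lt_mul_right h1 (Nat.zero_le _)
  have h3 : (L ^ (m + 2)) ^ 5 < (H ^ (2 * m + 16)) ^ 5 := Nat.pow_lt_pow_left h2 (by norm_num)
  have h4 : (H ^ (2 * m + 16)) ^ 5 ≤ L ^ (m + 8) := by
    calc (H ^ (2 * m + 16)) ^ 5 = (H ^ 10) ^ (m + 8) := by rw [← pow_mul, ← pow_mul]; congr 1; ring
      _ ≤ L ^ (m + 8) := Nat.pow_le_pow_left hHL _
  have h5 : L ^ (m + 8) ≤ (L ^ (m + 2)) ^ 5 := by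
    rw [← pow_mul]
    exact Nat.pow_le_pow_right hL0 (by omega)
  omega

lemma key_sqrt (a c s y u L D X : ℝ) (ha : 0 < a) (hc : 0 < c) (hs0 : 0 ≤ s) (hy0 : 0 ≤ y)
    (hL : 0 < L) (hX : 0 < X) (hD : D = a * c) (hu : L - u = c * s ^ 2)
    (hy : y ^ 2 = a * X + 1) :
    c * s * y = √(D * L * X) * (√(1 - u / L) * √(1 + 1 / (a * X))) := by
  have h1 : (c * s * y) ^ 2 = (D * L * X) * ((1 - u / L) * (1 + 1 / (a * X))) := by
    have e1 : 1 - u / L = c * s ^ 2 / L := by rw [← hu]; field_simp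
    rw [e1, mul_pow, hy, hD]
    field_simp
  have h2 : 0 ≤ 1 - u / L := by
    have e1 : 1 - u / L = c * s ^ 2 / L := by rw [← hu]; field_simp
    rw [e1]; positivity
  have hD0 : 0 < D := by rw [hD]; positivity
  rw [← Real.sqrt_mul h2, ← Real.sqrt_mul (by positivity), ← h1, Real.sqrt_sq (by positivity)]

lemma sqrt_one_add_le (t : ℝ) (ht : 0 ≤ t) : 1 ≤ √(1 + t) ∧ √(1 + t) - 1 ≤ t / 2 := by
  constructor
  · rw [Real.one_le_sqrt]; linarith
  · have : √(1 + t) ≤ 1 + t / 2 := by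
      rw [Real.sqrt_le_left (by positivity)]
      nlinarith [sq_nonneg t]
    linarith

/-- the analytic heart -/
lemma upper_core (u : Fin 3 → ℤ) (V L X k : ℕ) (a c s y : Fin 3 → ℕ) (D : ℕ)
    (hV : (V : ℤ) = (u 1 - u 0) * (u 2 - u 0) * (u 2 - u 1)) (hV0 : 0 < V)
    (hu : ∀ i, 0 ≤ u i) (hL : ∀ i, 2 * u i ≤ (L : ℤ)) (hL0 : 0 < L) (hk : 1 ≤ k)
    (ha : ∀ i, 0 < a i) (hc : ∀ i, 0 < c i) (hD : ∀ i, D = a i * c i) (hDL : D ≤ L)
    (hs : ∀ i, (L : ℤ) - u i = c i * s i ^ 2) (hy : ∀ i, y i ^ 2 = a i * X + 1)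
    (hk1 : 2 * ((4096 * V ^ 6) * L ^ 3) ^ k ≤ X)
    (hk2 : 4 * L ^ 2 * X * (4096 * V ^ 6) ^ k < L ^ (4 * k)) : False := by
  obtain ⟨q, hq1, hq2, hq3⟩ := pade u V L hV (by exact_mod_cast hV0) hu hL
    (by exact_mod_cast hL0) k hk
  have hLr : (1 : ℝ) ≤ L := by exact_mod_cast hL0
  have hLpos : (0 : ℝ) < L := by linarith
  have hVr : (1 : ℝ) ≤ V := by exact_mod_cast hV0
  have hX0 : 0 < X := by
    refine lt_of_lt_of_le ?_ hk1
    positivity
  have hXr : (0 : ℝ) < X := by exact_mod_cast hX0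
  have hD0 : 0 < D := by rw [hD 0]; exact Nat.mul_pos (ha 0) (hc 0)
  have hDr : (0 : ℝ) < D := by exact_mod_cast hD0
  simp only [Int.cast_natCast] at hq1 hq2 hq3
  set r : Fin 3 → ℝ := fun i => √(1 - u i / L) with hr
  set ρ : Fin 3 → ℝ := fun i => √(1 + 1 / (a i * X)) with hρ
  set Φ : ℝ := √(D * L * X) with hΦ
  have hΦ0 : 0 < Φ := Real.sqrt_pos.mpr (by positivity)
  have hΦ2 : Φ ^ 2 = D * L * X := Real.sq_sqrt (by positivity)
  set M : ℤ := ∑ i, q i * (c i * s i * y i) with hM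
  have hMr : (M : ℝ) = Φ * ∑ i, (q i : ℝ) * r i * ρ i := by
    rw [hM, Finset.mul_sum]
    push_cast
    apply Finset.sum_congr rfl
    intro i _
    have h1 := key_sqrt (a i) (c i) (s i) (y i) (u i) L D X (by exact_mod_cast ha i)
      (by exact_mod_cast hc i) (by positivity) (by positivity) hLpos hXr
      (by rw [hD i]; push_cast; ring) (by exact_mod_cast hs i) (by exact_mod_cast hy i)
    rw [h1]
    ring
  set P : ℝ := |∑ i, (q i : ℝ) * r i| with hP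
  have hr0 : ∀ i, 0 ≤ r i := fun i => Real.sqrt_nonneg _
  have hr1 : ∀ i, r i ≤ 1 := by
    intro i
    rw [hr]
    simp only
    rw [Real.sqrt_le_one]
    have : 0 ≤ (u i : ℝ) / L := div_nonneg (by exact_mod_cast hu i) hLpos.le
    linarith
  have hρ1 : ∀ i, 0 ≤ ρ i - 1 ∧ ρ i - 1 ≤ 1 / (2 * X) := by
    intro i
    have h0 : (1 : ℝ) ≤ a i := by exact_mod_cast ha i
    have h1 := sqrt_one_add_le (1 / (a i * X)) (by positivity)
    refine ⟨by linarith [h1.1], h1.2.trans ?_⟩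
    rw [div_div, one_div, one_div]
    apply inv_anti₀ (by positivity)
    nlinarith
  set Bq : ℝ := (128 * (V : ℝ) ^ 3 * L) ^ k with hBq
  have hBq0 : 0 < Bq := by positivity
  set E : ℝ := 3 * (Bq * (1 / (2 * X))) with hE
  have hdiff : |∑ i, (q i : ℝ) * r i * ρ i - ∑ i, (q i : ℝ) * r i| ≤ E := by
    rw [← Finset.sum_sub_distrib]
    refine (Finset.abs_sum_le_sum_abs _ _).trans ?_
    have h1 : ∀ i ∈ (Finset.univ : Finset (Fin 3)),
        |(q i : ℝ) * r i * ρ i - (q i : ℝ) * r i| ≤ Bq * (1 / (2 * X)) := by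
      intro i _
      have e1 : (q i : ℝ) * r i * ρ i - (q i : ℝ) * r i = (q i : ℝ) * (r i * (ρ i - 1)) := by ring
      rw [e1, abs_mul]
      have e2 : |r i * (ρ i - 1)| ≤ 1 / (2 * X) := by
        rw [abs_of_nonneg (mul_nonneg (hr0 i) (hρ1 i).1)]
        calc r i * (ρ i - 1) ≤ 1 * (1 / (2 * X)) :=
              mul_le_mul (hr1 i) (hρ1 i).2 (hρ1 i).1 (by norm_num)
          _ = _ := one_mul _
      exact mul_le_mul (hq1 i) e2 (abs_nonneg _) hBq0.le
    refine (Finset.sum_le_sum h1).trans ?_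
    simp [hE]
  -- E < P
  have hEP : E < P := by
    have h1 : E * (16 * (L : ℝ) ^ 2) ^ k ≤ 3 / 4 := by
      have e1 : Bq * (16 * (L : ℝ) ^ 2) ^ k = ((2048 * (V : ℝ) ^ 3) * (L : ℝ) ^ 3) ^ k := by
        rw [hBq, ← mul_pow]; congr 1; ring
      have e2 : ((2048 * (V : ℝ) ^ 3) * (L : ℝ) ^ 3) ^ k ≤ ((4096 * (V : ℝ) ^ 6) * (L : ℝ) ^ 3) ^ k := by
        apply pow_le_pow_left₀ (by positivity)
        apply mul_le_mul_of_nonneg_right _ (by positivity)
        have : (V : ℝ) ^ 3 ≤ (V : ℝ) ^ 6 := pow_le_pow_right₀ hVr (by norm_num)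
        nlinarith [pow_pos (lt_of_lt_of_le one_pos hVr) 3]
      have e3 : 2 * ((4096 * (V : ℝ) ^ 6) * (L : ℝ) ^ 3) ^ k ≤ X := by exact_mod_cast hk1
      have e4 : E * (16 * (L : ℝ) ^ 2) ^ k = 3 / (2 * X) * (Bq * (16 * (L : ℝ) ^ 2) ^ k) := by
        rw [hE]; ring
      rw [e4, e1]
      rw [div_mul_eq_mul_div, div_le_iff₀ (by positivity)]
      linarith
    have h2 : (0 : ℝ) < (16 * (L : ℝ) ^ 2) ^ k := by positivity
    have h3 : E * (16 * (L : ℝ) ^ 2) ^ k < P * (16 * (L : ℝ) ^ 2) ^ k := by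
      have : P * (16 * (L : ℝ) ^ 2) ^ k = (16 * (L : ℝ) ^ 2) ^ k * P := mul_comm _ _
      rw [this]
      linarith
    exact lt_of_mul_lt_mul_right h3 h2.le
  have hE0 : 0 ≤ E := by positivity
  have hP0 : 0 < P := lt_of_le_of_lt hE0 hEP
  -- 2 Φ P < 1
  have hΦP : 2 * Φ * P < 1 := by
    have h1 : (2 * Φ * P) ^ 2 * (L : ℝ) ^ (4 * k) < (L : ℝ) ^ (4 * k) := by
      have e1 : (2 * Φ * P) ^ 2 * (L : ℝ) ^ (4 * k) = 4 * Φ ^ 2 * (((L : ℝ) ^ 2) ^ k * P) ^ 2 := by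
        rw [mul_pow (((L : ℝ) ^ 2) ^ k) P 2, ← pow_mul, ← pow_mul]
        have : (L : ℝ) ^ (4 * k) = (L : ℝ) ^ (2 * k * 2) := by congr 1; ring
        rw [this]; ring
      rw [e1, hΦ2]
      have e2 : (((L : ℝ) ^ 2) ^ k * P) ^ 2 ≤ (4096 * (V : ℝ) ^ 6) ^ k := by
        calc (((L : ℝ) ^ 2) ^ k * P) ^ 2 ≤ ((64 * (V : ℝ) ^ 3) ^ k) ^ 2 :=
              pow_le_pow_left₀ (by positivity) hq3 2
          _ = (4096 * (V : ℝ) ^ 6) ^ k := by
              rw [← pow_mul, mul_comm k 2, pow_mul]; congr 1; ring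
      have e3 : (4 : ℝ) * L ^ 2 * X * (4096 * (V : ℝ) ^ 6) ^ k < (L : ℝ) ^ (4 * k) := by
        exact_mod_cast hk2
      have e4 : (D : ℝ) ≤ L := by exact_mod_cast hDL
      calc 4 * ((D : ℝ) * L * X) * (((L : ℝ) ^ 2) ^ k * P) ^ 2
          ≤ 4 * ((L : ℝ) * L * X) * (4096 * (V : ℝ) ^ 6) ^ k := by
            apply mul_le_mul _ e2 (by positivity) (by positivity)
            apply mul_le_mul_of_nonneg_left _ (by norm_num)
            apply mul_le_mul_of_nonneg_right _ hXr.le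
            exact mul_le_mul_of_nonneg_right e4 hLpos.le
        _ = (4 : ℝ) * L ^ 2 * X * (4096 * (V : ℝ) ^ 6) ^ k := by ring
        _ < _ := e3
    have h2 : (0 : ℝ) < (L : ℝ) ^ (4 * k) := by positivity
    have h3 : (2 * Φ * P) ^ 2 < 1 := by
      by_contra hcon
      push Not at hcon
      nlinarith
    exact (sq_lt_one_iff₀ (by positivity)).mp h3
  -- conclusion
  have hS1 : |∑ i, (q i : ℝ) * r i * ρ i| ≤ P + E := by
    have := abs_sub_abs_le_abs_sub (∑ i, (q i : ℝ) * r i * ρ i) (∑ i, (q i : ℝ) * r i)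
    linarith
  have hS2 : P - E ≤ |∑ i, (q i : ℝ) * r i * ρ i| := by
    have := abs_sub_abs_le_abs_sub (∑ i, (q i : ℝ) * r i) (∑ i, (q i : ℝ) * r i * ρ i)
    rw [abs_sub_comm] at this
    linarith
  have hMabs : |(M : ℝ)| = Φ * |∑ i, (q i : ℝ) * r i * ρ i| := by
    rw [hMr, abs_mul, abs_of_pos hΦ0]
  have hM1 : |(M : ℝ)| < 1 := by
    rw [hMabs]
    calc Φ * |∑ i, (q i : ℝ) * r i * ρ i| ≤ Φ * (P + E) := mul_le_mul_of_nonneg_left hS1 hΦ0.le
      _ ≤ 2 * Φ * P := by nlinarith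
      _ < 1 := hΦP
  have hM2 : 0 < |(M : ℝ)| := by
    rw [hMabs]
    apply mul_pos hΦ0
    linarith
  have hM3 : |M| < 1 := by
    rw [← Int.cast_abs] at hM1
    exact_mod_cast hM1
  have hM4 : M = 0 := Int.abs_lt_one_iff.mp hM3
  rw [hM4] at hM2
  simp at hM2

/-- The upper bound. -/
theorem upper (a1 d1 d2 B X s1 s2 s3 y1 y2 y3 : ℕ) (ha1 : 0 < a1) (hd1 : 0 < d1) (hd2 : 0 < d2)
    (hs1 : a1 * B + 1 = s1 ^ 2) (hs2 : (a1 + d1) * B + 1 = s2 ^ 2)
    (hs3 : (a1 + d1 + d2) * B + 1 = s3 ^ 2)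
    (hy1 : a1 * X + 1 = y1 ^ 2) (hy2 : (a1 + d1) * X + 1 = y2 ^ 2)
    (hy3 : (a1 + d1 + d2) * X + 1 = y3 ^ 2)
    (hB : (4096 * ((a1 + d1 + d2) ^ 6) ^ 6) ^ 10 ≤ B)
    (hX : ((a1 + d1) * (a1 + d1 + d2) * (a1 * B + 1)) ^ 28 ≤ X) : False := by
  set A2 := a1 + d1 with hA2
  set A3 := A2 + d2 with hA3
  have hA2p : 0 < A2 := by omega
  have hA3p : 0 < A3 := by omega
  have hB0 : 0 < B := lt_of_lt_of_le (by positivity) hB
  set L := A2 * A3 * (a1 * B + 1) with hL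
  set V := (A3 * d1) * (A2 * (d1 + d2)) * (a1 * d2) with hV
  have hVpos : 0 < V := by positivity
  have hVle : V ≤ A3 ^ 6 := by
    have e1 : A3 * d1 ≤ A3 * A3 := Nat.mul_le_mul_left _ (by omega)
    have e2 : A2 * (d1 + d2) ≤ A3 * A3 := Nat.mul_le_mul (by omega) (by omega)
    have e3 : a1 * d2 ≤ A3 * A3 := Nat.mul_le_mul (by omega) (by omega)
    calc V ≤ (A3 * A3) * (A3 * A3) * (A3 * A3) := Nat.mul_le_mul (Nat.mul_le_mul e1 e2) e3
      _ = A3 ^ 6 := by ring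
  have hLpos : 0 < L := by positivity
  have hBL : B ≤ L := by
    rw [hL]
    calc B ≤ a1 * B + 1 := by nlinarith
      _ ≤ A2 * A3 * (a1 * B + 1) := Nat.le_mul_of_pos_left _ (by positivity)
  have hHL : (4096 * V ^ 6) ^ 10 ≤ L := by
    refine le_trans ?_ (hB.trans hBL)
    apply Nat.pow_le_pow_left
    apply Nat.mul_le_mul_left
    exact Nat.pow_le_pow_left hVle 6
  have hH8 : 8 ≤ 4096 * V ^ 6 := by
    have : 1 ≤ V ^ 6 := pow_pos hVpos 6
    omega
  obtain ⟨k, hk, hk1, hk2⟩ := exists_k (4096 * V ^ 6) L X hH8 hHL hX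
  refine upper_core ![0, A3 * d1, A2 * (d1 + d2)] V L X k ![a1, A2, A3]
    ![A2 * A3, a1 * A3, a1 * A2] ![s1, s2, s3] ![y1, y2, y3] (a1 * A2 * A3)
    ?_ hVpos ?_ ?_ hLpos hk ?_ ?_ ?_ ?_ ?_ ?_ hk1 hk2
  · simp only [Matrix.cons_val_zero, Matrix.cons_val_one, Matrix.cons_val]
    rw [hV]
    push_cast
    rw [hA3, hA2]
    push_cast
    ring
  · intro i
    fin_cases i
    · simp
    · simp only [Fin.mk_one, Matrix.cons_val_one, Matrix.cons_val_zero]; positivity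
    · simp only [Fin.reduceFinMk, Matrix.cons_val]; positivity
  · -- 2 u_i ≤ L
    have hB1 : 2 ≤ a1 * B + 1 := by nlinarith
    have e0 : A2 * A3 * 2 ≤ L := Nat.mul_le_mul_left _ hB1
    intro i
    fin_cases i
    · simp
    · simp only [Fin.mk_one, Matrix.cons_val_one, Matrix.cons_val_zero]
      have e1 : A3 * d1 ≤ A2 * A3 := by
        rw [mul_comm A2 A3]; exact Nat.mul_le_mul_left _ (by omega)
      have : 2 * (A3 * d1) ≤ L := by omega
      exact_mod_cast this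
    · simp only [Fin.reduceFinMk, Matrix.cons_val]
      have e1 : A2 * (d1 + d2) ≤ A2 * A3 := Nat.mul_le_mul_left _ (by omega)
      have : 2 * (A2 * (d1 + d2)) ≤ L := by omega
      exact_mod_cast this
  · intro i
    fin_cases i
    · simpa using ha1
    · simpa using hA2p
    · simpa using hA3p
  · intro i
    fin_cases i
    · simp only [Fin.zero_eta, Matrix.cons_val_zero]; positivity
    · simp only [Fin.mk_one, Matrix.cons_val_one, Matrix.cons_val_zero]; positivity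
    · simp only [Fin.reduceFinMk, Matrix.cons_val]; positivity
  · intro i
    fin_cases i
    · simp only [Fin.zero_eta, Matrix.cons_val_zero]; ring
    · simp only [Fin.mk_one, Matrix.cons_val_one, Matrix.cons_val_zero]; ring
    · simp only [Fin.reduceFinMk, Matrix.cons_val]; ring
  · -- D ≤ L
    rw [hL]
    calc a1 * A2 * A3 = A2 * A3 * a1 := by ring
      _ ≤ A2 * A3 * (a1 * B + 1) := Nat.mul_le_mul_left _ (by nlinarith)
  · intro i
    fin_cases i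
    · simp only [Fin.zero_eta, Matrix.cons_val_zero]
      rw [hL, sub_zero]
      push_cast
      have : (a1 : ℤ) * B + 1 = s1 ^ 2 := by exact_mod_cast hs1
      rw [this]
    · simp only [Fin.mk_one, Matrix.cons_val_one, Matrix.cons_val_zero]
      have : (A2 : ℤ) * B + 1 = s2 ^ 2 := by exact_mod_cast hs2
      rw [← this, hL]
      push_cast
      rw [hA3, hA2]
      push_cast
      ring
    · simp only [Fin.reduceFinMk, Matrix.cons_val]
      have : (A3 : ℤ) * B + 1 = s3 ^ 2 := by exact_mod_cast hs3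
      rw [← this, hL]
      push_cast
      rw [hA3, hA2]
      push_cast
      ring
  · intro i
    fin_cases i
    · simpa using hy1.symm
    · simpa using hy2.symm
    · simpa using hy3.symm

end Pool.Agent.Lib.MP_a849c1_nt
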