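import Mathlib
import Pool.Agent.Lib.MP_a849c1_nt.Gap
import Pool.Agent.Lib.MP_a849c1_nt.Upper

/-!
No `K_{33,33}` in a Diophantine graph.
-/

namespace Pool.Agent.Lib.MP_a849c1_nt

/-- Two increasing sequences of length `33` of positive integers with all `a i * b j + 1` squares. -/
structure Config (a b : ℕ → ℕ) : Prop where
  ha : ∀ i j, i < j → j < 33 → a i < a j
  hb : ∀ i j, i < j → j < 33 → b i < b j
  ha0 : ∀ i, i < 33 → 0 < a i
  hb0 : ∀ i, i < 33 → 0 < b i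
  hsq : ∀ i j, i < 33 → j < 33 → ∃ s, a i * b j + 1 = s ^ 2

lemma Config.swap {a b : ℕ → ℕ} (h : Config a b) : Config b a where
  ha := h.hb
  hb := h.ha
  ha0 := h.hb0
  hb0 := h.ha0
  hsq i j hi hj := by
    obtain ⟨s, hs⟩ := h.hsq j i hj hi
    exact ⟨s, by rw [mul_comm]; exact hs⟩

lemma Config.gap {a b : ℕ → ℕ} (h : Config a b) (i i' i'' j j' : ℕ) (h1 : i < i') (h2 : i' < i'')
    (h3 : i'' < 33) (h4 : j < j') (h5 : j' < 33) :
    64 * b j ^ 3 * a i ^ 2 ≤ b j' * a i'' ^ 2 := by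
  obtain ⟨s1, hs1⟩ := h.hsq i j (by omega) (by omega)
  obtain ⟨s2, hs2⟩ := h.hsq i' j (by omega) (by omega)
  obtain ⟨s3, hs3⟩ := h.hsq i'' j (by omega) (by omega)
  obtain ⟨y1, hy1⟩ := h.hsq i j' (by omega) (by omega)
  obtain ⟨y2, hy2⟩ := h.hsq i' j' (by omega) (by omega)
  obtain ⟨y3, hy3⟩ := h.hsq i'' j' (by omega) (by omega)
  exact MP_a849c1_nt.gap (a i) (a i') (a i'') (b j) (b j') s1 s2 s3 y1 y2 y3 (h.ha0 i (by omega))
    (h.ha i i' h1 (by omega)) (h.ha i' i'' h2 h3) (h.hb0 j (by omega)) (h.hb j j' h4 h5)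
    hs1 hs2 hs3 hy1 hy2 hy3

lemma Config.growth {a b : ℕ → ℕ} (h : Config a b) (m : ℕ) (hm : m + 2 < 33) :
    (a m * b m) ^ 5 ≤ (a (m + 2) * b (m + 2)) ^ 3 := by
  have h1 := h.gap m (m + 1) (m + 2) m (m + 1) (by omega) (by omega) hm (by omega) (by omega)
  have h2 := h.swap.gap m (m + 1) (m + 2) m (m + 1) (by omega) (by omega) hm (by omega) (by omega)
  have e1 : b m ^ 3 * a m ^ 2 ≤ b (m + 1) * a (m + 2) ^ 2 := by
    refine le_trans ?_ h1
    rw [mul_assoc]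
    exact Nat.le_mul_of_pos_left _ (by norm_num)
  have e2 : a m ^ 3 * b m ^ 2 ≤ a (m + 1) * b (m + 2) ^ 2 := by
    refine le_trans ?_ h2
    rw [mul_assoc]
    exact Nat.le_mul_of_pos_left _ (by norm_num)
  have ha := (h.ha (m + 1) (m + 2) (by omega) hm).le
  have hb := (h.hb (m + 1) (m + 2) (by omega) hm).le
  calc (a m * b m) ^ 5 = (b m ^ 3 * a m ^ 2) * (a m ^ 3 * b m ^ 2) := by ring
    _ ≤ (b (m + 1) * a (m + 2) ^ 2) * (a (m + 1) * b (m + 2) ^ 2) := Nat.mul_le_mul e1 e2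
    _ ≤ (b (m + 2) * a (m + 2) ^ 2) * (a (m + 2) * b (m + 2) ^ 2) :=
        Nat.mul_le_mul (Nat.mul_le_mul_right _ hb) (Nat.mul_le_mul_right _ ha)
    _ = _ := by ring

lemma Config.growth_iter {a b : ℕ → ℕ} (h : Config a b) (n : ℕ) (hn : 2 + 2 * n < 33) :
    (a 2 * b 2) ^ (5 ^ n) ≤ (a (2 + 2 * n) * b (2 + 2 * n)) ^ (3 ^ n) := by
  induction n with
  | zero => simp
  | succ n ih =>
    have h1 := ih (by omega)
    have h2 := h.growth (2 + 2 * n) (by omega)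
    have e : 2 + 2 * n + 2 = 2 + 2 * (n + 1) := by ring
    rw [e] at h2
    calc (a 2 * b 2) ^ (5 ^ (n + 1)) = ((a 2 * b 2) ^ (5 ^ n)) ^ 5 := by
          rw [← pow_mul, pow_succ]
      _ ≤ ((a (2 + 2 * n) * b (2 + 2 * n)) ^ (3 ^ n)) ^ 5 := Nat.pow_le_pow_left h1 5
      _ = ((a (2 + 2 * n) * b (2 + 2 * n)) ^ 5) ^ (3 ^ n) := by
          rw [← pow_mul, ← pow_mul, mul_comm (3 ^ n) 5]
      _ ≤ ((a (2 + 2 * (n + 1)) * b (2 + 2 * (n + 1))) ^ 3) ^ (3 ^ n) := Nat.pow_le_pow_left h2 _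
      _ = _ := by rw [← pow_mul, pow_succ, mul_comm 3 (3 ^ n)]

lemma pow_helper (x y m n c : ℕ) (hx : 1 ≤ x) (h : x ^ m ≤ y ^ n) (hc : c * n ≤ m) (hn : n ≠ 0) :
    x ^ c ≤ y := by
  have h1 : (x ^ c) ^ n ≤ y ^ n := by
    rw [← pow_mul]
    exact (Nat.pow_le_pow_right hx hc).trans h
  exact (Nat.pow_le_pow_iff_left hn).mp h1

lemma Config.big {a b : ℕ → ℕ} (h : Config a b) : (a 2 * b 2) ^ 440 ≤ a 26 * b 26 := by
  have h1 := h.growth_iter 12 (by norm_num)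
  have e : 2 + 2 * 12 = 26 := by norm_num
  rw [e] at h1
  have hp : 1 ≤ a 2 * b 2 := Nat.mul_pos (h.ha0 2 (by norm_num)) (h.hb0 2 (by norm_num))
  exact pow_helper _ _ _ _ _ hp h1 (by norm_num) (by norm_num)

lemma Config.chain {a b : ℕ → ℕ} (h : Config a b) (hab : a 2 ^ 440 ≤ b 26) : False := by
  have ha01 := h.ha 0 1 (by norm_num) (by norm_num)
  have ha12 := h.ha 1 2 (by norm_num) (by norm_num)
  have ha0 := h.ha0 0 (by norm_num)
  have ha2 : 3 ≤ a 2 := by omega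
  have hpow : ∀ n, n ≤ 440 → a 2 ^ n ≤ b 26 := fun n hn =>
    (Nat.pow_le_pow_right (by omega) hn).trans hab
  have hmono : ∀ j, 26 ≤ j → j < 33 → b 26 ≤ b j := by
    intro j hj hj'
    rcases Nat.eq_or_lt_of_le hj with h' | h'
    · rw [h']
    · exact (h.hb 26 j h' hj').le
  have step : ∀ j, 26 ≤ j → j + 1 < 33 → b j ^ 2 ≤ b (j + 1) := by
    intro j hj hj'
    have h1 := h.gap 0 1 2 j (j + 1) (by norm_num) (by norm_num) (by norm_num) (by omega) hj'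
    have h2 : a 2 ^ 2 ≤ b j := (hpow 2 (by norm_num)).trans (hmono j hj (by omega))
    have h3 : 0 < b j := h.hb0 j (by omega)
    have h4 : b j ^ 2 * b j ≤ b (j + 1) * b j := by
      calc b j ^ 2 * b j = b j ^ 3 * 1 := by ring
        _ ≤ b j ^ 3 * (64 * a 0 ^ 2) := Nat.mul_le_mul_left _ (Nat.mul_pos (by norm_num) (by positivity))
        _ = 64 * b j ^ 3 * a 0 ^ 2 := by ring
        _ ≤ b (j + 1) * a 2 ^ 2 := h1
        _ ≤ b (j + 1) * b j := Nat.mul_le_mul_left _ h2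
    exact Nat.le_of_mul_le_mul_right h4 h3
  have chain : b 26 ^ 64 ≤ b 32 := by
    have s26 := step 26 (by norm_num) (by norm_num)
    have s27 := step 27 (by norm_num) (by norm_num)
    have s28 := step 28 (by norm_num) (by norm_num)
    have s29 := step 29 (by norm_num) (by norm_num)
    have s30 := step 30 (by norm_num) (by norm_num)
    have s31 := step 31 (by norm_num) (by norm_num)
    have t : ∀ x y z n : ℕ, x ^ n ≤ y → y ^ 2 ≤ z → x ^ (n * 2) ≤ z := by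
      intro x y z n h1 h2
      rw [pow_mul]
      exact (Nat.pow_le_pow_left h1 2).trans h2
    have u1 := t _ _ _ _ s26 s27
    have u2 := t _ _ _ _ u1 s28
    have u3 := t _ _ _ _ u2 s29
    have u4 := t _ _ _ _ u3 s30
    have u5 := t _ _ _ _ u4 s31
    norm_num at u5
    exact u5
  have hB0 : 0 < b 26 := h.hb0 26 (by norm_num)
  obtain ⟨d1, hd1⟩ : ∃ d, a 1 = a 0 + d := ⟨a 1 - a 0, by omega⟩
  obtain ⟨d2, hd2⟩ : ∃ d, a 2 = a 1 + d := ⟨a 2 - a 1, by omega⟩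
  obtain ⟨s1, hs1⟩ := h.hsq 0 26 (by norm_num) (by norm_num)
  obtain ⟨s2, hs2⟩ := h.hsq 1 26 (by norm_num) (by norm_num)
  obtain ⟨s3, hs3⟩ := h.hsq 2 26 (by norm_num) (by norm_num)
  obtain ⟨y1, hy1⟩ := h.hsq 0 32 (by norm_num) (by norm_num)
  obtain ⟨y2, hy2⟩ := h.hsq 1 32 (by norm_num) (by norm_num)
  obtain ⟨y3, hy3⟩ := h.hsq 2 32 (by norm_num) (by norm_num)
  have hd2' : a 2 = a 0 + d1 + d2 := by omega
  refine upper (a 0) d1 d2 (b 26) (b 32) s1 s2 s3 y1 y2 y3 ha0 (by omega) (by omega) hs1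
    (by rw [← hd1]; exact hs2) (by rw [← hd2']; exact hs3) hy1 (by rw [← hd1]; exact hy2)
    (by rw [← hd2']; exact hy3) ?_ ?_
  · rw [← hd2']
    have e1 : (4096 * (a 2 ^ 6) ^ 6) ^ 10 = 4096 ^ 10 * a 2 ^ 360 := by
      rw [mul_pow, ← pow_mul, ← pow_mul]
    rw [e1]
    have e2 : 4096 ^ 10 ≤ a 2 ^ 80 :=
      le_trans (by norm_num : 4096 ^ 10 ≤ 3 ^ 80) (Nat.pow_le_pow_left ha2 80)
    calc 4096 ^ 10 * a 2 ^ 360 ≤ a 2 ^ 80 * a 2 ^ 360 := Nat.mul_le_mul_right _ e2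
      _ = a 2 ^ 440 := by rw [← pow_add]
      _ ≤ b 26 := hab
  · rw [← hd2', ← hd1]
    have e1 : a 1 * a 2 * (a 0 * b 26 + 1) ≤ b 26 ^ 2 := by
      have f1 : a 0 * b 26 + 1 ≤ 2 * (a 2 * b 26) := by
        have g1 : a 0 * b 26 ≤ a 2 * b 26 := Nat.mul_le_mul_right _ (by omega)
        have g2 : 1 ≤ a 2 * b 26 := Nat.mul_pos (by omega) hB0
        omega
      have f2 : 2 * a 2 ^ 3 ≤ b 26 := by
        refine le_trans ?_ (hpow 4 (by norm_num))
        calc 2 * a 2 ^ 3 ≤ a 2 * a 2 ^ 3 := Nat.mul_le_mul_right _ (by omega)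
          _ = a 2 ^ 4 := by ring
      calc a 1 * a 2 * (a 0 * b 26 + 1) ≤ a 2 * a 2 * (2 * (a 2 * b 26)) :=
            Nat.mul_le_mul (Nat.mul_le_mul_right _ ha12.le) f1
        _ = (2 * a 2 ^ 3) * b 26 := by ring
        _ ≤ b 26 * b 26 := Nat.mul_le_mul_right _ f2
        _ = b 26 ^ 2 := by ring
    calc (a 1 * a 2 * (a 0 * b 26 + 1)) ^ 28 ≤ (b 26 ^ 2) ^ 28 := Nat.pow_le_pow_left e1 28
      _ = b 26 ^ 56 := by rw [← pow_mul]
      _ ≤ b 26 ^ 64 := Nat.pow_le_pow_right hB0 (by norm_num)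
      _ ≤ b 32 := chain

lemma Config.false {a b : ℕ → ℕ} (h : Config a b) : False := by
  have h1 := h.big
  by_cases h2 : a 2 ^ 440 ≤ b 26
  · exact h.chain h2
  · by_cases h3 : b 2 ^ 440 ≤ a 26
    · exact h.swap.chain h3
    · push Not at h2 h3
      rw [mul_pow] at h1
      have : a 26 * b 26 < b 2 ^ 440 * a 2 ^ 440 := Nat.mul_lt_mul'' h3 h2
      rw [mul_comm (b 2 ^ 440)] at this
      omega

/-- There are no two sets of `33` positive integers with all `a b + 1` squares. -/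
theorem no_K33 (A B : Finset ℕ) (hA : A.card = 33) (hB : B.card = 33) (hA0 : ∀ a ∈ A, 0 < a)
    (hB0 : ∀ b ∈ B, 0 < b) (hsq : ∀ a ∈ A, ∀ b ∈ B, IsSquare (a * b + 1)) : False := by
  set f := A.orderEmbOfFin hA with hf
  set g := B.orderEmbOfFin hB with hg
  let a : ℕ → ℕ := fun n => if h : n < 33 then f ⟨n, h⟩ else 0
  let b : ℕ → ℕ := fun n => if h : n < 33 then g ⟨n, h⟩ else 0
  have ea : ∀ i (hi : i < 33), a i = f ⟨i, hi⟩ := fun i hi => dif_pos hi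
  have eb : ∀ i (hi : i < 33), b i = g ⟨i, hi⟩ := fun i hi => dif_pos hi
  have hc : Config a b := by
    refine ⟨?_, ?_, ?_, ?_, ?_⟩
    · intro i j hij hj
      rw [ea i (by omega), ea j hj]
      exact f.strictMono (by simpa using hij)
    · intro i j hij hj
      rw [eb i (by omega), eb j hj]
      exact g.strictMono (by simpa using hij)
    · intro i hi
      rw [ea i hi]
      exact hA0 _ (Finset.orderEmbOfFin_mem A hA _)
    · intro i hi
      rw [eb i hi]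
      exact hB0 _ (Finset.orderEmbOfFin_mem B hB _)
    · intro i j hi hj
      rw [ea i hi, eb j hj]
      obtain ⟨s, hs⟩ := hsq _ (Finset.orderEmbOfFin_mem A hA ⟨i, hi⟩) _
        (Finset.orderEmbOfFin_mem B hB ⟨j, hj⟩)
      exact ⟨s, by rw [hs]; ring⟩
  exact hc.false

end Pool.Agent.Lib.MP_a849c1_nt
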